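import Pool.Agent.ANE.W9

/-! # ANE FINAL: the statement of Q1 of MP_28b024_mp and its deduction from `AndOut`. -/

open MeasureTheory Set Filter Topology Pool.Agent.Helper3.Anderson

noncomputable section

namespace Pool.Agent.ANE

/-- `φ` in `ℓ²(ℤ^d)` is an eigenvector (or zero) of `-Δ + V` with eigenvalue `E`. -/
def IsEigen {d : ℕ} (V : Site d → ℝ) (E : ℝ) (φ : Site d → ℂ) : Prop :=
  Memℓp φ 2 ∧ ∀ x, -lap φ x + V x * φ x = E * φ x

/-- `ψ` belongs to the continuous spectral subspace of `-Δ + V`: it is in `ℓ²(ℤ^d)` and orthogonal to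
all eigenvectors. -/
def IsContinuous {d : ℕ} (V : Site d → ℝ) (ψ : Site d → ℂ) : Prop :=
  Memℓp ψ 2 ∧ ∀ (E : ℝ) (φ : Site d → ℂ), IsEigen V E φ → ∑' x, star (φ x) * ψ x = 0

/-- `χ` is the resolvent vector `(-Δ + V - z)⁻¹ ψ` in `ℓ²(ℤ^d)`. -/
def IsRes {d : ℕ} (V : Site d → ℝ) (z : ℂ) (ψ χ : Site d → ℂ) : Prop :=
  Memℓp χ 2 ∧ ∀ x, -lap χ x + V x * χ x - z * χ x = ψ x

/-- `ν` is the spectral measure of `ψ` for the operator `-Δ + V`, given by its Borel transform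
`⟨ψ, (-Δ + V - z)⁻¹ ψ⟩ = ∫ (t - z)⁻¹ dν(t)` for `Im z > 0`. -/
def IsSpectral {d : ℕ} (V : Site d → ℝ) (ψ : Site d → ℂ) (ν : Measure ℝ) : Prop :=
  IsFiniteMeasure ν ∧ ∀ z : ℂ, 0 < z.im → ∃ χ : Site d → ℂ, IsRes V z ψ χ ∧
    ∑' x, star (ψ x) * χ x = ∫ t : ℝ, ((t : ℂ) - z)⁻¹ ∂ν

/-- The operator `-Δ + V` has continuous spectrum in `[a,b]`: the spectral projection of `[a,b]`
restricted to the continuous subspace is not zero, that is, some vector of the continuous subspace has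
a spectral measure that charges `[a,b]`. -/
def HasContinuousSpectrum {d : ℕ} (V : Site d → ℝ) (a b : ℝ) : Prop :=
  ∃ ψ : Site d → ℂ, IsContinuous V ψ ∧ ∃ ν : Measure ℝ, IsSpectral V ψ ν ∧ ν (Icc a b) ≠ 0

theorem has_of_contIn {d : ℕ} {V : Site d → ℝ} (hV : Bdd V) {a b : ℝ} (h : ContIn V hV a b) :
    HasContinuousSpectrum V a b := by
  obtain ⟨ψ, ν, h1, h2, h3⟩ := h
  refine ⟨ψ, ⟨lp.memℓp ψ, fun E φ hφ => ?_⟩, ν, ?_, h3⟩
  · have h4 : schr V hV (⟨φ, hφ.1⟩ : L2 d) = (E : ℂ) • (⟨φ, hφ.1⟩ : L2 d) := by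
      ext x
      simp only [schr_apply, lp.coeFn_smul, Pi.smul_apply, smul_eq_mul]
      exact hφ.2 x
    have h5 := h1 E _ h4
    rw [Helper3.Crit.inner_eq_tsum'] at h5
    exact h5
  · exact Helper3.Crit.isSpectral_of_isSpec V hV ψ h2

/-- the deduction of Q1 for the law `μ` -/
theorem final {d : ℕ} (hd : 0 < d) {μ : Measure ℝ} [IsProbabilityMeasure μ] {M : ℝ}
    {K : NNReal} (hμ : GoodLaw μ M K) {a b : ℝ} (hab : a < b) (ha : 0 ≤ a) (hb : b ≤ 4 * d) :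
    ∃ κ : ℝ, 0 < κ ∧ ∀ lam : ℝ, 0 < lam → lam ≤ κ → ∀ c : ℝ, 0 < c →
      AndOut d μ lam a b c (κ * lam) →
      ∀ᵐ ω ∂(siteLaw d μ), HasContinuousSpectrum (fun x => lam * ω x) a b := by
  have hM : 0 ≤ M := by linarith [hμ.one_le]
  obtain ⟨κ, hκ, h⟩ := ae_contIn_of_out hd hμ hM hab ha hb
  refine ⟨κ, hκ, fun lam hl hl1 c hc ho => ?_⟩
  have h1 := h lam hl hl1 c hc ho
  have h2 : ∀ᵐ ω ∂(siteLaw d μ), ∀ x : Site d, ω x ∈ Icc (-M) M := by
    rw [ae_all_iff]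
    intro x
    have h3 : ∀ᵐ t ∂μ, t ∈ Icc (-M) M := by
      rw [ae_iff]
      exact hμ.supp
    have h4 : (siteLaw d μ).map (fun ω => ω x) = μ := by
      unfold siteLaw
      exact Measure.infinitePi_map_eval _ x
    rw [← h4] at h3
    exact ae_of_ae_map (measurable_pi_apply x).aemeasurable h3
  filter_upwards [h1, h2] with ω hω hb
  have h5 : potc M lam ω = fun x => lam * ω x := by
    funext x
    rw [potc, clip_of_abs_le (abs_le.2 ⟨(hb x).1, (hb x).2⟩)]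
  have h6 := has_of_contIn _ hω
  rwa [h5] at h6

end Pool.Agent.ANE
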