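import Pool.Agent.ANE.WDefs

/-! # ANE W10: a witness from an exact solution on the torus and a cut.

`u` solves `(H0T + V - E - i W) u = δ_0` on the torus, `Lam` is any set of sites of the window containing `0`;
`1_Lam u` is a witness if the sum over the cut edges of `|H0_xy| |u_y| (1 + |u_x|)` is `< η`. -/

open MeasureTheory Set Filter Topology Pool.Agent.Helper3.Anderson

noncomputable section

namespace Pool.Agent.ANE

open Pool.Agent.Kin

theorem witT_of_cut {d L : ℕ} [NeZero L] (V W : Tor d L → ℝ) {E c η : ℝ} (u : Tor d L → ℂ)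
    (hu : ∀ x, rsdT V E W u x = 0) (hW : ∀ x, 0 ≤ W x ∧ W x ≤ η) (Lam : Finset (Tor d L))
    (h0 : (0 : Tor d L) ∈ Lam) (hLam : ∀ x ∈ Lam, ∀ j, 2 * |rep x j| + 4 ≤ (L : ℤ))
    (hc : c < (u 0).im)
    (hs : ∑ x : Tor d L, ∑ y : Tor d L, (if (x ∈ Lam ↔ y ∉ Lam) then
      ‖H0T d L x y‖ * ‖u y‖ * (1 + ‖u x‖) else 0) < η) : WitT L V E c η := by
  classical
  set w : Tor d L → ℂ := fun x => if x ∈ Lam then u x else 0 with hw
  have hr : ∀ x, rsdT V E W w x = ∑ y : Tor d L, (if (x ∈ Lam ↔ y ∉ Lam) then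
      (if x ∈ Lam then -(H0T d L x y * u y) else H0T d L x y * u y) else 0) := by
    intro x
    by_cases hx : x ∈ Lam
    · have h1 : rsdT V E W w x = rsdT V E W u x -
          ((H0T d L).mulVec u x - (H0T d L).mulVec w x) := by
        simp only [rsdT, hw, hx, if_true]
        ring
      rw [h1, hu, zero_sub]
      simp only [Matrix.mulVec, dotProduct]
      rw [← Finset.sum_sub_distrib, ← Finset.sum_neg_distrib]
      refine Finset.sum_congr rfl fun y _ => ?_
      by_cases hy : y ∈ Lam
      · simp [hw, hx, hy]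
      · simp [hw, hx, hy]
    · have hx0 : x ≠ 0 := fun h => hx (h ▸ h0)
      have h1 : rsdT V E W w x = (H0T d L).mulVec w x := by
        simp [rsdT, hw, hx, hx0]
      rw [h1]
      simp only [Matrix.mulVec, dotProduct]
      refine Finset.sum_congr rfl fun y _ => ?_
      by_cases hy : y ∈ Lam
      · simp [hw, hx, hy]
      · simp [hw, hx, hy]
  refine ⟨w, W, hW, fun x hx => ?_, ?_, ?_⟩
  · have : x ∈ Lam := by
      by_contra h
      exact hx (by simp [hw, h])
    exact hLam x this
  · refine lt_of_le_of_lt (Finset.sum_le_sum fun x _ => ?_) hs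
    have hwx : ‖w x‖ ≤ ‖u x‖ := by
      by_cases hx : x ∈ Lam
      · simp [hw, hx]
      · simp [hw, hx]
    calc ‖rsdT V E W w x‖ * (1 + ‖w x‖)
        ≤ (∑ y : Tor d L, (if (x ∈ Lam ↔ y ∉ Lam) then ‖H0T d L x y‖ * ‖u y‖ else 0)) *
          (1 + ‖u x‖) := by
          refine mul_le_mul ?_ (by linarith) (by positivity)
            (Finset.sum_nonneg fun y _ => by split_ifs <;> positivity)
          rw [hr]
          refine (norm_sum_le _ _).trans (Finset.sum_le_sum fun y _ => ?_)
          split_ifs <;> simp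
      _ = ∑ y : Tor d L, (if (x ∈ Lam ↔ y ∉ Lam) then
          ‖H0T d L x y‖ * ‖u y‖ * (1 + ‖u x‖) else 0) := by
          rw [Finset.sum_mul]
          refine Finset.sum_congr rfl fun y _ => ?_
          split_ifs <;> simp
  · simpa [hw, h0] using hc

end Pool.Agent.ANE
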