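import Pool.Agent.ANE.PureC

/-! # ANE PURED: the spectrum in `[a,b]` is not empty and purely continuous, from `AndOut` with any `δ < 1`. -/

open MeasureTheory Set Filter Topology Pool.Agent.Helper3.Anderson
open scoped ENNReal NNReal

noncomputable section

namespace Pool.Agent.ANE

open Pool.Agent.Helper3.Crit

/-- The deduction of the theorem from the output of the multiscale analysis: for all small `lam`, if the
probability of the event in `AndOut` is at least `1 - δ` for some `δ < 1`, then almost surely `-Δ + lam ω` has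
continuous spectrum in `[a,b]` and no eigenvalue in `[a,b]`. -/
theorem final_pure {d : ℕ} (hd : 0 < d) {μ : Measure ℝ} [IsProbabilityMeasure μ] {M : ℝ}
    {K : ℝ≥0} (hμ : GoodLaw μ M K) {a b : ℝ} (hab : a < b) (ha : 0 ≤ a) (hb : b ≤ 4 * d) :
    ∃ κ : ℝ, 0 < κ ∧ ∀ lam : ℝ, 0 < lam → lam ≤ κ → ∀ c δ : ℝ, 0 < c → δ < 1 →
      AndOut d μ lam a b c δ →
      ∀ᵐ ω ∂(siteLaw d μ), HasContinuousSpectrum (fun x => lam * ω x) a b ∧
        ∀ E ∈ Icc a b, ∀ φ : Site d → ℂ, IsEigen (fun x => lam * ω x) E φ → φ = 0 := by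
  have hM : 0 ≤ M := by linarith [hμ.one_le]
  obtain ⟨F, κ1, c3, hκ1, hc3, hF⟩ := exists_charge hd hab ha hb
  refine ⟨κ1 / (M + 1), by positivity, fun lam hlam hlam1 c δ hc hδ h => ?_⟩
  have h1 := ae_no_eigen_of_out hd hμ hlam hc hδ h
  have h2 := ae_coord (d := d) (μ := μ) hμ.supp
  filter_upwards [h1, h2] with ω hω hbd
  refine ⟨?_, hω⟩
  have h5 : potc M lam ω = fun x => lam * ω x := by
    funext x
    rw [potc, clip_of_abs_le (abs_le.2 (notMem_compl_iff.1 (hbd x)))]
  rw [← h5] at hω ⊢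
  refine has_of_contIn (bdd_potc hM ω) ?_
  choose ν hν using fun y : Site d =>
    exists_isSpec (potc M lam ω) (bdd_potc hM ω) (lp.single 2 y (1 : ℂ) : L2 d)
  obtain ⟨x, -, hx⟩ := hF (potc M lam ω) (bdd_potc hM ω) (fun x => by
    refine (abs_potc_le hM ω x).trans ?_
    rw [abs_of_pos hlam]
    have h6 : lam * (M + 1) ≤ κ1 := by
      rwa [le_div_iff₀ (by positivity)] at hlam1
    nlinarith) ν hν 0
  refine contIn_of_diff _ _ (x + 0) (hν (x + 0)) (D := ∅) MeasurableSet.empty ?_ ?_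
  · intro E hE φ hφ hφx
    refine absurd ?_ hφx
    have h6 : (φ : Site d → ℂ) = 0 := by
      refine hω E hE φ ⟨lp.memℓp φ, fun y => ?_⟩
      have h7 := schr_apply (potc M lam ω) (bdd_potc hM ω) φ y
      rw [hφ] at h7
      exact h7.symm
    rw [h6]
    rfl
  · rw [sdiff_empty]
    intro h0
    rw [measureReal_def, h0, ENNReal.toReal_zero] at hx
    linarith

end Pool.Agent.ANE
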