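import Pool.Agent.ANE.W6

/-! # ANE PUREA: the set of sites `y` for which `(-Δ + V - E) φ = δ_y` has a solution in `ℓ²`; measurability.

The set of `(E, V)` for which there is a solution with `‖φ‖² ≤ n` and `r ≤ |φ z|` is closed (projection of a
closed set along a compact one).
-/

open MeasureTheory Set Filter Topology Pool.Agent.Helper3.Anderson

noncomputable section

namespace Pool.Agent.ANE

variable {d : ℕ}

/-- `(-Δ + V - E) φ = δ_y` -/
def IsSol (V : Site d → ℝ) (E : ℝ) (y : Site d) (φ : Site d → ℂ) : Prop :=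
  ∀ x, -lap φ x + V x * φ x - E * φ x = if x = y then 1 else 0

/-- there is a solution in `ℓ²` -/
def HasSol (V : Site d → ℝ) (E : ℝ) (y : Site d) : Prop := ∃ φ, Memℓp φ 2 ∧ IsSol V E y φ

/-- there is a solution in `ℓ²` which is not zero at `z` -/
def HasSolNe (V : Site d → ℝ) (E : ℝ) (y z : Site d) : Prop :=
  ∃ φ, Memℓp φ 2 ∧ IsSol V E y φ ∧ φ z ≠ 0

lemma memLp_iff_bdd (φ : Site d → ℂ) :
    Memℓp φ 2 ↔ ∃ n : ℕ, ∀ F : Finset (Site d), ∑ x ∈ F, ‖φ x‖ ^ 2 ≤ n := by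
  constructor
  · intro h
    have hs : Summable (fun x => ‖φ x‖ ^ 2) := by
      have := h.summable (by norm_num : 0 < (2 : ENNReal).toReal)
      simpa using this
    obtain ⟨n, hn⟩ := exists_nat_ge (∑' x, ‖φ x‖ ^ 2)
    exact ⟨n, fun F => (hs.sum_le_tsum F fun x _ => by positivity).trans hn⟩
  · rintro ⟨n, hn⟩
    refine memℓp_gen ?_
    have e : (2 : ENNReal).toReal = ((2 : ℕ) : ℝ) := by norm_num
    rw [e]
    simp only [Real.rpow_natCast]
    exact summable_of_sum_le (fun x => by positivity) hn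

/-- the closed sets -/
def solSet (d : ℕ) (y z : Site d) (n : ℕ) (r : ℝ) : Set (ℝ × (Site d → ℝ)) :=
  {q | ∃ φ : Site d → ℂ, (∀ F : Finset (Site d), ∑ x ∈ F, ‖φ x‖ ^ 2 ≤ n) ∧
    IsSol q.2 q.1 y φ ∧ r ≤ ‖φ z‖}

lemma isClosed_solSet (y z : Site d) (n : ℕ) (r : ℝ) : IsClosed (solSet d y z n r) := by
  set Kc : Set (Site d → ℂ) := (Set.univ.pi fun _ : Site d => Metric.closedBall (0 : ℂ) (n + 1))
    with hKc
  have hcomp : IsCompact Kc := isCompact_univ_pi fun _ => isCompact_closedBall 0 _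
  have : CompactSpace Kc := isCompact_iff_compactSpace.1 hcomp
  set C : Set ((ℝ × (Site d → ℝ)) × Kc) :=
    {q | (∀ F : Finset (Site d), ∑ x ∈ F, ‖(q.2 : Site d → ℂ) x‖ ^ 2 ≤ n) ∧
      (∀ x, -lap (q.2 : Site d → ℂ) x + q.1.2 x * (q.2 : Site d → ℂ) x -
        q.1.1 * (q.2 : Site d → ℂ) x = if x = y then 1 else 0) ∧
      r ≤ ‖(q.2 : Site d → ℂ) z‖} with hC
  have hev : ∀ x : Site d, Continuous fun q : (ℝ × (Site d → ℝ)) × Kc => (q.2 : Site d → ℂ) x :=
    fun x => (continuous_apply x).comp (continuous_subtype_val.comp continuous_snd)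
  have hpot : ∀ x : Site d, Continuous fun q : (ℝ × (Site d → ℝ)) × Kc => ((q.1.2 x : ℝ) : ℂ) :=
    fun x => Complex.continuous_ofReal.comp
      ((continuous_apply x).comp (continuous_snd.comp continuous_fst))
  have hE : Continuous fun q : (ℝ × (Site d → ℝ)) × Kc => ((q.1.1 : ℝ) : ℂ) :=
    Complex.continuous_ofReal.comp (continuous_fst.comp continuous_fst)
  have hlap : ∀ x : Site d, Continuous fun q : (ℝ × (Site d → ℝ)) × Kc =>
      lap (q.2 : Site d → ℂ) x := by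
    intro x
    unfold lap
    exact continuous_finsetSum _ fun j _ => ((hev _).sub (hev _)).add ((hev _).sub (hev _))
  have hclosed : IsClosed C := by
    rw [hC]
    refine IsClosed.inter ?_ (IsClosed.inter ?_ ?_)
    · have : {q : (ℝ × (Site d → ℝ)) × Kc | ∀ F : Finset (Site d),
          ∑ x ∈ F, ‖(q.2 : Site d → ℂ) x‖ ^ 2 ≤ n} = ⋂ F : Finset (Site d),
          {q : (ℝ × (Site d → ℝ)) × Kc | ∑ x ∈ F, ‖(q.2 : Site d → ℂ) x‖ ^ 2 ≤ n} := by
        ext q; simp
      change IsClosed {q : (ℝ × (Site d → ℝ)) × Kc | ∀ F : Finset (Site d),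
          ∑ x ∈ F, ‖(q.2 : Site d → ℂ) x‖ ^ 2 ≤ n}
      rw [this]
      exact isClosed_iInter fun F => isClosed_le
        (continuous_finsetSum _ fun x _ => (hev x).norm.pow 2) continuous_const
    · have : {q : (ℝ × (Site d → ℝ)) × Kc | ∀ x, -lap (q.2 : Site d → ℂ) x +
          q.1.2 x * (q.2 : Site d → ℂ) x - q.1.1 * (q.2 : Site d → ℂ) x =
          if x = y then 1 else 0} = ⋂ x, {q : (ℝ × (Site d → ℝ)) × Kc |
          -lap (q.2 : Site d → ℂ) x + q.1.2 x * (q.2 : Site d → ℂ) x -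
          q.1.1 * (q.2 : Site d → ℂ) x = if x = y then 1 else 0} := by
        ext q; simp
      change IsClosed {q : (ℝ × (Site d → ℝ)) × Kc | ∀ x, -lap (q.2 : Site d → ℂ) x +
          q.1.2 x * (q.2 : Site d → ℂ) x - q.1.1 * (q.2 : Site d → ℂ) x =
          if x = y then 1 else 0}
      rw [this]
      exact isClosed_iInter fun x => isClosed_eq
        (((hlap x).neg.add ((hpot x).mul (hev x))).sub (hE.mul (hev x))) continuous_const
    · exact isClosed_le continuous_const (hev z).norm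
  have himg := isClosedMap_fst_of_compactSpace (X := (ℝ × (Site d → ℝ))) (Y := Kc) C hclosed
  convert himg using 1
  ext q
  constructor
  · rintro ⟨φ, h1, h2, h3⟩
    have hφ : φ ∈ Kc := by
      rw [hKc, mem_univ_pi]
      intro x
      rw [mem_closedBall_zero_iff]
      have h4 := h1 {x}
      rw [Finset.sum_singleton] at h4
      nlinarith [norm_nonneg (φ x), Nat.cast_nonneg (α := ℝ) n]
    exact ⟨(q, ⟨φ, hφ⟩), ⟨h1, h2, h3⟩, rfl⟩
  · rintro ⟨⟨q', φ⟩, ⟨h1, h2, h3⟩, rfl⟩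
    exact ⟨φ, h1, h2, h3⟩

lemma hasSol_iff (V : Site d → ℝ) (E : ℝ) (y : Site d) :
    HasSol V E y ↔ ∃ n : ℕ, (E, V) ∈ solSet d y y n 0 := by
  constructor
  · rintro ⟨φ, h1, h2⟩
    obtain ⟨n, hn⟩ := (memLp_iff_bdd φ).1 h1
    exact ⟨n, φ, hn, h2, norm_nonneg _⟩
  · rintro ⟨n, φ, h1, h2, _⟩
    exact ⟨φ, (memLp_iff_bdd φ).2 ⟨n, h1⟩, h2⟩

lemma hasSolNe_iff (V : Site d → ℝ) (E : ℝ) (y z : Site d) :
    HasSolNe V E y z ↔ ∃ n m : ℕ, (E, V) ∈ solSet d y z n (1 / ((m : ℝ) + 1)) := by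
  constructor
  · rintro ⟨φ, h1, h2, h3⟩
    obtain ⟨n, hn⟩ := (memLp_iff_bdd φ).1 h1
    obtain ⟨m, hm⟩ := exists_nat_one_div_lt (norm_pos_iff.2 h3)
    exact ⟨n, m, φ, hn, h2, hm.le⟩
  · rintro ⟨n, m, φ, h1, h2, h3⟩
    refine ⟨φ, (memLp_iff_bdd φ).2 ⟨n, h1⟩, h2, ?_⟩
    rw [← norm_pos_iff]
    exact lt_of_lt_of_le (by positivity) h3

lemma continuous_potc_pair (M lam : ℝ) :
    Continuous fun q : ℝ × (Site d → ℝ) => (q.1, potc M lam q.2) := by
  refine continuous_fst.prodMk (continuous_pi fun x => ?_)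
  exact continuous_const.mul ((continuous_clip M).comp ((continuous_apply x).comp continuous_snd))

theorem measurableSet_hasSol (M lam : ℝ) (y : Site d) :
    MeasurableSet {q : ℝ × (Site d → ℝ) | HasSol (potc M lam q.2) q.1 y} := by
  have h1 : {q : ℝ × (Site d → ℝ) | HasSol (potc M lam q.2) q.1 y} =
      ⋃ n : ℕ, (fun q : ℝ × (Site d → ℝ) => (q.1, potc M lam q.2)) ⁻¹' solSet d y y n 0 := by
    ext q
    rw [mem_iUnion]
    exact hasSol_iff _ _ _
  rw [h1]
  exact MeasurableSet.iUnion fun n =>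
    ((isClosed_solSet y y n 0).preimage (continuous_potc_pair M lam)).measurableSet

theorem measurableSet_hasSolNe (M lam : ℝ) (y z : Site d) :
    MeasurableSet {q : ℝ × (Site d → ℝ) | HasSolNe (potc M lam q.2) q.1 y z} := by
  have h1 : {q : ℝ × (Site d → ℝ) | HasSolNe (potc M lam q.2) q.1 y z} =
      ⋃ n : ℕ, ⋃ m : ℕ, (fun q : ℝ × (Site d → ℝ) => (q.1, potc M lam q.2)) ⁻¹'
        solSet d y z n (1 / ((m : ℝ) + 1)) := by
    ext q
    rw [mem_iUnion]
    refine (hasSolNe_iff _ _ _ _).trans ?_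
    refine exists_congr fun n => ?_
    rw [mem_iUnion]
    rfl
  rw [h1]
  exact MeasurableSet.iUnion fun n => MeasurableSet.iUnion fun m =>
    ((isClosed_solSet y z n _).preimage (continuous_potc_pair M lam)).measurableSet

end Pool.Agent.ANE
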