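import Pool.Agent.ANE.PureA

/-! # ANE PUREB: deterministic facts about the set `Y` of sites `y` with a solution of
`(-Δ + V - E) φ = δ_y` in `ℓ²`.

* if `V`, `V'` differ exactly at `y`, if `z` has a solution for `V` and a solution for `V'` that is not
  zero at `y`, then `y` has a solution for `V` (`hasSol_of_two`);
* if no solution for a site of `Y` is non-zero at a site off `Y`, then `Y` is empty or everything
  (`none_or_all`).
-/

open MeasureTheory Set Filter Topology Pool.Agent.Helper3.Anderson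
open scoped InnerProductSpace

noncomputable section

namespace Pool.Agent.ANE

open Pool.Agent.Helper3.Crit

variable {d : ℕ}

/-- the operator `-Δ + V - E` on functions -/
def opE (V : Site d → ℝ) (E : ℝ) (φ : Site d → ℂ) (x : Site d) : ℂ :=
  -lap φ x + V x * φ x - E * φ x

lemma lap_add' (φ ψ : Site d → ℂ) (x : Site d) :
    lap (fun y => φ y + ψ y) x = lap φ x + lap ψ x := by
  unfold lap
  rw [← Finset.sum_add_distrib]
  exact Finset.sum_congr rfl fun j _ => by ring

lemma lap_mul' (a : ℂ) (φ : Site d → ℂ) (x : Site d) :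
    lap (fun y => a * φ y) x = a * lap φ x := by
  unfold lap
  rw [Finset.mul_sum]
  exact Finset.sum_congr rfl fun j _ => by ring

lemma opE_add (V : Site d → ℝ) (E : ℝ) (φ ψ : Site d → ℂ) (x : Site d) :
    opE V E (fun y => φ y + ψ y) x = opE V E φ x + opE V E ψ x := by
  unfold opE
  rw [lap_add']
  ring

lemma opE_mul (V : Site d → ℝ) (E : ℝ) (a : ℂ) (φ : Site d → ℂ) (x : Site d) :
    opE V E (fun y => a * φ y) x = a * opE V E φ x := by
  unfold opE
  rw [lap_mul']
  ring

lemma opE_zero (V : Site d → ℝ) (E : ℝ) (x : Site d) : opE V E (fun _ => 0) x = 0 := by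
  unfold opE lap
  simp

lemma opE_sum {ι : Type*} (V : Site d → ℝ) (E : ℝ) (s : Finset ι) (f : ι → Site d → ℂ)
    (x : Site d) : opE V E (fun y => ∑ i ∈ s, f i y) x = ∑ i ∈ s, opE V E (f i) x := by
  classical
  induction s using Finset.induction_on with
  | empty => simp only [Finset.sum_empty]; exact opE_zero V E x
  | insert i s hi ih =>
    simp only [Finset.sum_insert hi]
    rw [opE_add, ih]

/-- symmetry of the values of the solutions -/
lemma sol_symm (V : Site d → ℝ) (hV : Bdd V) {E : ℝ} {y z : Site d} {φ ψ : Site d → ℂ}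
    (hφ : Memℓp φ 2) (hψ : Memℓp ψ 2) (h1 : IsSol V E y φ) (h2 : IsSol V E z ψ) :
    ψ y = (starRingEnd ℂ) (φ z) := by
  have key : ∀ {w : Site d} {χ : Site d → ℂ} (hχ : Memℓp χ 2), IsSol V E w χ →
      schr V hV (⟨χ, hχ⟩ : L2 d) = (E : ℂ) • (⟨χ, hχ⟩ : L2 d) + dl w := by
    intro w χ hχ h
    ext x
    rw [schr_apply, lp.coeFn_add, Pi.add_apply, lp.coeFn_smul, Pi.smul_apply, smul_eq_mul, dl_apply]
    have := h x
    change -lap χ x + V x * χ x = E * χ x + if x = w then 1 else 0
    rw [← this]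
    ring
  have h3 := inner_schr V hV (⟨φ, hφ⟩ : L2 d) (⟨ψ, hψ⟩ : L2 d)
  rw [key hφ h1, key hψ h2, inner_add_left, inner_add_right, inner_smul_left, inner_smul_right,
    Complex.conj_ofReal, inner_dl, ← inner_conj_symm (⟨φ, hφ⟩ : L2 d) (dl z), inner_dl] at h3
  have h4 := add_left_cancel h3
  exact h4

/-- two solutions give a solution at the site where the potentials differ -/
lemma hasSol_of_two {V V' : Site d → ℝ} {E : ℝ} {y z : Site d} (hV : ∀ x, x ≠ y → V' x = V x)
    (hy : V' y ≠ V y) (h : HasSol V E z) (h' : HasSolNe V' E z y) : HasSol V E y := by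
  obtain ⟨φ, hφ, hφs⟩ := h
  obtain ⟨ψ, hψ, hψs, hψy⟩ := h'
  obtain ⟨a, ha⟩ : ∃ a : ℂ, a = ((((V' y : ℝ) : ℂ) - ((V y : ℝ) : ℂ)) * ψ y) := ⟨_, rfl⟩
  have hne : (((V' y : ℝ) : ℂ) - ((V y : ℝ) : ℂ)) ≠ 0 := by
    rw [sub_ne_zero]
    intro hh
    exact hy (Complex.ofReal_injective hh)
  have ha0 : a ≠ 0 := by rw [ha]; exact mul_ne_zero hne hψy
  refine ⟨fun x => a⁻¹ * φ x + (-a⁻¹) * ψ x, (hφ.const_mul a⁻¹).add (hψ.const_mul (-a⁻¹)), ?_⟩
  intro x
  change opE V E (fun x => a⁻¹ * φ x + (-a⁻¹) * ψ x) x = _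
  rw [opE_add, opE_mul, opE_mul]
  have h1 : opE V E φ x = if x = z then 1 else 0 := hφs x
  have h2 : opE V' E ψ x = if x = z then 1 else 0 := hψs x
  have h3 : opE V E ψ x = opE V' E ψ x - (((V' x : ℝ) : ℂ) - ((V x : ℝ) : ℂ)) * ψ x := by
    unfold opE
    ring
  rw [h3, h1, h2]
  by_cases hx : x = y
  · subst hx
    rw [if_pos rfl, ← ha]
    field_simp
    ring
  · rw [if_neg hx, hV x hx]
    ring

/-- an eigenfunction gives a solution at the site where the potentials differ -/
lemma hasSol_of_eigen {V V' : Site d → ℝ} {E : ℝ} {y : Site d} (hV : ∀ x, x ≠ y → V' x = V x)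
    (hy : V' y ≠ V y) {φ : Site d → ℂ} (hφ : Memℓp φ 2)
    (h : ∀ x, -lap φ x + V x * φ x = E * φ x) (h0 : φ y ≠ 0) : HasSol V' E y := by
  obtain ⟨a, ha⟩ : ∃ a : ℂ, a = ((((V' y : ℝ) : ℂ) - ((V y : ℝ) : ℂ)) * φ y) := ⟨_, rfl⟩
  have hne : (((V' y : ℝ) : ℂ) - ((V y : ℝ) : ℂ)) ≠ 0 := by
    rw [sub_ne_zero]
    intro hh
    exact hy (Complex.ofReal_injective hh)
  have ha0 : a ≠ 0 := by rw [ha]; exact mul_ne_zero hne h0
  refine ⟨fun x => a⁻¹ * φ x, hφ.const_mul a⁻¹, ?_⟩
  intro x
  change opE V' E (fun x => a⁻¹ * φ x) x = _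
  rw [opE_mul]
  have h2 : opE V' E φ x = (((V' x : ℝ) : ℂ) - ((V x : ℝ) : ℂ)) * φ x := by
    unfold opE
    have := h x
    linear_combination this
  rw [h2]
  by_cases hx : x = y
  · subst hx
    rw [if_pos rfl, ← ha]
    field_simp
  · rw [if_neg hx, hV x hx]
    ring

private lemma sum_pair_zero {f g : Fin d → ℝ} (hf : ∀ i, 0 ≤ f i) (hg : ∀ i, 0 ≤ g i)
    (h : ∑ i, (f i + g i) = 0) (j : Fin d) : f j = 0 ∧ g j = 0 := by
  have h1 := (Finset.sum_eq_zero_iff_of_nonneg fun i _ => add_nonneg (hf i) (hg i)).1 h j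
    (Finset.mem_univ j)
  constructor
  · linarith [hf j, hg j]
  · linarith [hf j, hg j]

/-- no neighbour of a site without solution has a solution -/
lemma nbr_not (V : Site d → ℝ) (hV : Bdd V) {E : ℝ}
    (h : ∀ z y, HasSol V E z → ¬ HasSol V E y → ¬ HasSolNe V E z y) {y : Site d}
    (hy : ¬ HasSol V E y) (j : Fin d) :
    ¬ HasSol V E (y + Pi.single j 1) ∧ ¬ HasSol V E (y - Pi.single j 1) := by
  classical
  obtain ⟨g, hgm, hgs, hg0⟩ : ∃ g : Site d → Site d → ℂ, (∀ w, Memℓp (g w) 2) ∧
      (∀ w, HasSol V E w → IsSol V E w (g w)) ∧ (∀ w, ¬ HasSol V E w → g w = fun _ => 0) := by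
    refine ⟨fun w => if hw : HasSol V E w then hw.choose else fun _ => 0, fun w => ?_,
      fun w hw => ?_, fun w hw => ?_⟩
    · by_cases hw : HasSol V E w
      · simp only [hw, dite_true]
        exact hw.choose_spec.1
      · simp only [hw, dite_false]
        exact zero_memℓp
    · simp only [hw, dite_true]
      exact hw.choose_spec.2
    · simp only [hw, dite_false]
  -- symmetric values
  have hoff : ∀ w z, ¬ HasSol V E z → g w z = 0 := by
    intro w z hz
    by_cases hw : HasSol V E w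
    · by_contra h0
      exact h w z hw hz ⟨g w, hgm w, hgs w hw, h0⟩
    · rw [hg0 w hw]
  have hsym : ∀ w z, HasSol V E z → g w z = (starRingEnd ℂ) (g z w) := by
    intro w z hz
    by_cases hw : HasSol V E w
    · exact sol_symm V hV (hgm z) (hgm w) (hgs z hz) (hgs w hw)
    · rw [hg0 w hw, hoff z w hw, map_zero]
  have hchi : ∀ z, ∑ i : Fin d, (g (y + Pi.single i 1) z + g (y - Pi.single i 1) z) = 0 := by
    intro z
    by_cases hz : HasSol V E z
    · have h1 : ∑ i : Fin d, (g (y + Pi.single i 1) z + g (y - Pi.single i 1) z) =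
          (starRingEnd ℂ) (∑ i : Fin d, (g z (y + Pi.single i 1) + g z (y - Pi.single i 1))) := by
        rw [map_sum]
        refine Finset.sum_congr rfl fun i _ => ?_
        rw [map_add, hsym _ z hz, hsym _ z hz]
      have h2 := hgs z hz y
      have hyz : y ≠ z := fun h => hy (h ▸ hz)
      rw [if_neg hyz] at h2
      have h3 : g z y = 0 := hoff z y hy
      unfold lap at h2
      simp only [h3, sub_zero, mul_zero, add_zero] at h2
      have h4 : ∑ i : Fin d, (g z (y + Pi.single i 1) + g z (y - Pi.single i 1)) = 0 :=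
        neg_eq_zero.1 h2
      rw [h1, h4, map_zero]
    · refine Finset.sum_eq_zero fun i _ => ?_
      rw [hoff _ z hz, hoff _ z hz, add_zero]
  have hop : ∀ x, ∑ i : Fin d, (opE V E (g (y + Pi.single i 1)) x +
      opE V E (g (y - Pi.single i 1)) x) = 0 := by
    intro x
    have h1 : (fun z => ∑ i : Fin d, (g (y + Pi.single i 1) z + g (y - Pi.single i 1) z)) =
        fun _ => 0 := funext hchi
    have h2 := opE_sum V E Finset.univ
      (fun i z => g (y + Pi.single i 1) z + g (y - Pi.single i 1) z) x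
    rw [h1, opE_zero] at h2
    rw [h2]
    exact Finset.sum_congr rfl fun i _ => (opE_add V E _ _ x).symm
  have hval : ∀ w x, 0 ≤ (opE V E (g w) x).re := by
    intro w x
    by_cases hw : HasSol V E w
    · have h1 : opE V E (g w) x = if x = w then 1 else 0 := hgs w hw x
      rw [h1]
      split_ifs <;> simp
    · rw [hg0 w hw, opE_zero]
      simp
  have hone : ∀ w, HasSol V E w → (opE V E (g w) w).re = 1 := by
    intro w hw
    have h1 : opE V E (g w) w = if w = w then 1 else 0 := hgs w hw w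
    rw [h1, if_pos rfl, Complex.one_re]
  have hre : ∀ x, ∑ i : Fin d, ((opE V E (g (y + Pi.single i 1)) x).re +
      (opE V E (g (y - Pi.single i 1)) x).re) = 0 := by
    intro x
    have h1 := congrArg Complex.re (hop x)
    rw [Complex.re_sum, Complex.zero_re] at h1
    simpa only [Complex.add_re] using h1
  constructor
  · intro hw
    have h1 := (sum_pair_zero (fun i => hval _ _) (fun i => hval _ _)
      (hre (y + Pi.single j 1)) j).1
    rw [hone _ hw] at h1
    exact one_ne_zero h1
  · intro hw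
    have h1 := (sum_pair_zero (fun i => hval _ _) (fun i => hval _ _)
      (hre (y - Pi.single j 1)) j).2
    rw [hone _ hw] at h1
    exact one_ne_zero h1

/-- a property that passes to neighbours holds everywhere -/
lemma all_of_nbr {P : Site d → Prop}
    (h : ∀ y j, P y → P (y + Pi.single j 1) ∧ P (y - Pi.single j 1)) {y0 : Site d} (h0 : P y0) :
    ∀ y, P y := by
  classical
  have h1 : ∀ (j : Fin d) (n : ℤ) (y : Site d), P y → P (y + n • Pi.single j 1) := by
    intro j n
    induction n using Int.induction_on with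
    | zero => intro y hy; rwa [zero_smul, add_zero]
    | succ n ih =>
      intro y hy
      rw [add_smul, one_smul, ← add_assoc]
      exact (h _ j (ih y hy)).1
    | pred n ih =>
      intro y hy
      rw [sub_smul, one_smul, ← add_sub_assoc]
      exact (h _ j (ih y hy)).2
  have h2 : ∀ (v : Site d) (s : Finset (Fin d)) (y : Site d), P y →
      P (y + ∑ j ∈ s, v j • (Pi.single j 1 : Site d)) := by
    intro v s
    induction s using Finset.induction_on with
    | empty => intro y hy; rwa [Finset.sum_empty, add_zero]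
    | insert i s hi ih =>
      intro y hy
      rw [Finset.sum_insert hi, ← add_assoc]
      exact ih _ (h1 i (v i) y hy)
  intro y
  have h3 := h2 (y - y0) Finset.univ y0 h0
  have h4 : ∑ j : Fin d, (y - y0) j • (Pi.single j 1 : Site d) = y - y0 := by
    funext i
    rw [Finset.sum_apply]
    simp only [Pi.smul_apply, smul_eq_mul]
    rw [Finset.sum_eq_single i]
    · simp
    · intro j _ hj
      rw [Pi.single_eq_of_ne' hj, mul_zero]
    · intro hi
      exact absurd (Finset.mem_univ i) hi
  rw [h4, add_sub_cancel] at h3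
  exact h3

theorem none_or_all (V : Site d → ℝ) (hV : Bdd V) {E : ℝ}
    (h : ∀ z y, HasSol V E z → ¬ HasSol V E y → ¬ HasSolNe V E z y) :
    (∀ y, ¬ HasSol V E y) ∨ (∀ y, HasSol V E y) := by
  by_cases h0 : ∀ y, HasSol V E y
  · exact Or.inr h0
  · push Not at h0
    obtain ⟨y0, hy0⟩ := h0
    exact Or.inl (all_of_nbr (P := fun y => ¬ HasSol V E y) (fun y j hy => nbr_not V hV h hy j) hy0)

end Pool.Agent.ANE
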