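import Pool.Agent.ANE.SoftDefs

/-! # ANE SOFTC: zero-one law for shift invariant events of i.i.d. fields (`d ≥ 1`).

`PP d μ` is the product measure on `Site d → ℝ`, `tr v ω x = ω (x + v)`, `measurePreserving_tr`.
For `e > 0` there is a measurable set `C` depending only on the coordinates in a finite set `F` with
`P (S ∆ C) ≤ e` (the cylinders form an algebra that generates the σ-algebra; for example
`exists_measure_symmDiff_lt_of_generateFrom_isSetRing` in Mathlib, or martingale convergence of the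
conditional expectations).  For `v` with `F ∩ (F + v) = ∅` (`d ≥ 1`) the sets `C` and
`tr v ⁻¹' C` are independent, so `|P S - P S ^ 2| ≤ 4 e`: `P S = P (S ∩ tr v ⁻¹' S)`, within `2 e` of
`P (C ∩ tr v ⁻¹' C) = P C ^ 2`.
-/

open MeasureTheory Set Filter Topology Pool.Agent.Helper3.Anderson

noncomputable section

namespace Pool.Agent.ANE

open Pool.Agent.Helper3.Crit

private lemma exists_shift {d : ℕ} (hd : 0 < d) (F : Finset (Site d)) :
    ∃ v : Site d, Disjoint F (F.image (· + v)) := by
  classical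
  obtain ⟨i₀⟩ : Nonempty (Fin d) := ⟨⟨0, hd⟩⟩
  obtain ⟨R, hR⟩ : ∃ R : ℤ, R = ∑ x ∈ F, |x i₀| := ⟨_, rfl⟩
  have hle : ∀ x ∈ F, |x i₀| ≤ R := by
    intro x hx
    rw [hR]
    exact Finset.single_le_sum (f := fun x : Site d => |x i₀|) (fun _ _ => abs_nonneg _) hx
  obtain ⟨w, hw⟩ : ∃ w : Site d, w = fun _ => 2 * R + 1 := ⟨_, rfl⟩
  refine ⟨w, ?_⟩
  rw [Finset.disjoint_left]
  intro y hy hy'
  obtain ⟨x, hx, rfl⟩ := Finset.mem_image.1 hy'
  have h1 := hle x hx
  have h2 := hle _ hy
  have h3 : (x + w) i₀ = x i₀ + (2 * R + 1) := by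
    rw [Pi.add_apply, hw]
  rw [h3] at h2
  have h4 := (abs_le.1 h1).1
  have h5 := (abs_le.1 h2).2
  omega

private lemma cyl_indep {d : ℕ} (μ : Measure ℝ) [IsProbabilityMeasure μ]
    (F : Finset (Site d)) (A : Set ((i : F) → ℝ)) (hA : MeasurableSet A) (v : Site d)
    (hv : Disjoint F (F.image (· + v))) :
    (PP d μ).real (cylinder F A ∩ tr v ⁻¹' cylinder F A) =
      (PP d μ).real (cylinder F A) * (PP d μ).real (cylinder F A) := by
  classical
  have hind : ProbabilityTheory.iIndepFun (fun (i : Site d) (ω : Site d → ℝ) => ω i)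
      (PP d μ) :=
    ProbabilityTheory.iIndepFun_infinitePi (P := fun _ : Site d => μ)
      (X := fun (_ : Site d) (x : ℝ) => x) (fun _ => measurable_id)
  have h1 := hind.indepFun_finset F (F.image (· + v)) hv (fun i => measurable_pi_apply i)
  let φ : ((i : ↥(F.image (· + v))) → ℝ) → ((i : F) → ℝ) :=
    fun y i => y ⟨(i : Site d) + v, Finset.mem_image_of_mem _ i.2⟩
  have hφ : Measurable φ := measurable_pi_lambda _ fun i => measurable_pi_apply _
  have h2 := h1.comp measurable_id hφ
  have h3 := h2.measure_inter_preimage_eq_mul A A hA hA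
  have e1 : (id ∘ fun (a : Site d → ℝ) (i : F) => a (i : Site d)) ⁻¹' A = cylinder F A := rfl
  have e2 : (φ ∘ fun (a : Site d → ℝ) (i : ↥(F.image (· + v))) => a (i : Site d)) ⁻¹' A =
      tr v ⁻¹' cylinder F A := rfl
  rw [e1, e2] at h3
  have h4 : PP d μ (tr v ⁻¹' cylinder F A) = PP d μ (cylinder F A) :=
    (measurePreserving_tr (μ := μ) v).measure_preimage (hA.cylinder F).nullMeasurableSet
  rw [h4] at h3
  rw [measureReal_def, measureReal_def, h3, ENNReal.toReal_mul]

theorem zero_one {d : ℕ} (hd : 0 < d) {μ : Measure ℝ} [IsProbabilityMeasure μ]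
    {S : Set (Site d → ℝ)} (hS : MeasurableSet S) (hinv : ∀ v : Site d, tr v ⁻¹' S = S) :
    PP d μ S = 0 ∨ PP d μ S = 1 := by
  classical
  obtain ⟨P, hP⟩ : ∃ P, P = PP d μ := ⟨_, rfl⟩
  have hPp : IsProbabilityMeasure P := by rw [hP]; infer_instance
  obtain ⟨q, hq⟩ : ∃ q : ℝ, q = P.real S := ⟨_, rfl⟩
  have hq0 : 0 ≤ q := by rw [hq]; exact measureReal_nonneg
  have hq1 : q ≤ 1 := by rw [hq]; exact measureReal_le_one
  have key : ∀ ε : ℝ, 0 < ε → |q - q ^ 2| ≤ 4 * ε := by
    intro ε hε
    obtain ⟨C, hC, hCS⟩ := exists_measure_symmDiff_lt_of_generateFrom_isSetRing (μ := P)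
      (C := measurableCylinders (fun _ : Site d => ℝ)) isSetRing_measurableCylinders
      ⟨{univ}, countable_singleton _, by
        rw [singleton_subset_iff]
        exact univ_mem_measurableCylinders _, by simp⟩
      generateFrom_measurableCylinders.symm hS (ENNReal.ofReal_pos.2 hε)
    have hCm : MeasurableSet C := MeasurableSet.of_mem_measurableCylinders hC
    obtain ⟨F, A, hA, hCe⟩ := (mem_measurableCylinders C).1 hC
    obtain ⟨v, hv⟩ := exists_shift hd F
    have hind : P.real (C ∩ tr v ⁻¹' C) = P.real C * P.real C := by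
      rw [hP, hCe]
      exact cyl_indep μ F A hA v hv
    obtain ⟨a, ha⟩ : ∃ a : ℝ, a = P.real C := ⟨_, rfl⟩
    rw [← ha] at hind
    have ha0 : 0 ≤ a := by rw [ha]; exact measureReal_nonneg
    have ha1 : a ≤ 1 := by rw [ha]; exact measureReal_le_one
    have hmp : MeasurePreserving (tr v) P P := by rw [hP]; exact measurePreserving_tr v
    have hsd : P.real (symmDiff (C) S) ≤ ε := by
      rw [measureReal_def]
      exact ENNReal.toReal_le_of_le_ofReal hε.le hCS.le
    have hsd' : P.real (tr v ⁻¹' (symmDiff (C) S)) ≤ ε := by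
      rw [measureReal_def, hmp.measure_preimage (hCm.symmDiff hS).nullMeasurableSet]
      rw [measureReal_def] at hsd
      exact hsd
    have h1 : |a - q| ≤ ε := by
      rw [ha, hq]
      exact (abs_measureReal_sub_le_measureReal_symmDiff hCm.nullMeasurableSet
        hS.nullMeasurableSet).trans hsd
    have h2 : |a * a - q| ≤ 2 * ε := by
      rw [← hind, hq]
      have hCm' : MeasurableSet (C ∩ tr v ⁻¹' C) :=
        hCm.inter (hmp.measurable hCm)
      refine (abs_measureReal_sub_le_measureReal_symmDiff hCm'.nullMeasurableSet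
        hS.nullMeasurableSet).trans ?_
      have hsub : symmDiff (C ∩ tr v ⁻¹' C) S ⊆
          symmDiff (C) S ∪ tr v ⁻¹' (symmDiff (C) S) := by
        intro ω hω
        have hSv : ω ∈ tr v ⁻¹' S ↔ ω ∈ S := by rw [hinv v]
        simp only [Set.mem_symmDiff, mem_inter_iff, mem_union, mem_preimage] at hω hSv ⊢
        tauto
      calc P.real (symmDiff (C ∩ tr v ⁻¹' C) S) ≤
          P.real (symmDiff (C) S ∪ tr v ⁻¹' (symmDiff (C) S)) :=
            measureReal_mono hsub
        _ ≤ P.real (symmDiff (C) S) +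
            P.real (tr v ⁻¹' (symmDiff (C) S)) := measureReal_union_le _ _
        _ ≤ 2 * ε := by linarith
    have h3 : |a * a - q ^ 2| ≤ 2 * ε := by
      have h4 : a * a - q ^ 2 = (a - q) * (a + q) := by ring
      rw [h4, abs_mul, abs_of_nonneg (show 0 ≤ a + q by linarith)]
      calc |a - q| * (a + q) ≤ ε * 2 :=
            mul_le_mul h1 (by linarith) (by linarith) hε.le
        _ = 2 * ε := by ring
    have h5 := abs_le.1 h2
    have h6 := abs_le.1 h3
    rw [abs_le]
    constructor <;> linarith [h5.1, h5.2, h6.1, h6.2]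
  have h7 : q - q ^ 2 = 0 := by
    by_contra hne
    have h8 : 0 < |q - q ^ 2| := abs_pos.2 hne
    have h9 := key (|q - q ^ 2| / 8) (by positivity)
    linarith
  have h10 : q * (1 - q) = 0 := by linarith
  rw [← hP]
  rcases mul_eq_zero.1 h10 with h | h
  · left
    rw [h] at hq
    exact (measureReal_eq_zero_iff).1 hq.symm
  · right
    have h11 : P.real S = 1 := by linarith
    rw [measureReal_def] at h11
    exact (ENNReal.toReal_eq_one_iff _).1 h11

end Pool.Agent.ANE
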