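import Pool.Agent.ANE.WDefs

/-! # ANE W1: an energy for which `(H' - E) χ = δ_0` has a solution in `ℓ²` has no witness for small `η`; in
particular, an eigenvalue of `H` (eigenfunction not zero at `0`) is such an energy for every `H'` that differs
from `H` exactly at the site `0`.

`not_wit_of_sol`.  Take `ψ = Re φ` (real valued, it solves the same equation: `lap`, `V`, `E` are real).
Let `u, W, F` be a witness, `r = rsd V E W u`.  All sums are finite or absolutely convergent; `Δ` is symmetric: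
`∑ ψ_x (lap u)_x = ∑ (lap ψ)_x u_x` (`u` has finite support), hence
`u_0 = ∑ ((-lap + V - E) ψ)_x u_x = ∑ ψ_x ((-lap + V - E) u)_x = ψ_0 + ∑ ψ_x r_x + i ∑ ψ_x W_x u_x`, so
`Im u_0 ≤ ‖ψ‖_∞ ∑ |r_x| + (∑ W ψ²)^{1/2} (∑ W |u|²)^{1/2} ≤ N η + η^{1/2} N (∑ W |u|²)^{1/2}`, `N = ‖φ‖₂`.
Taking the imaginary part of `∑ conj(u_x) ((-lap + V - E - i W) u)_x = conj(u_0) + ∑ conj(u_x) r_x`
(`∑ conj(u) (-lap + V - E) u` is real): `∑ W |u|² = Im u_0 - Im ∑ conj(u_x) r_x ≤ Im u_0 + η`.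
So with `t = Im u_0 + η`: `t ≤ (N + 1) η + η^{1/2} N t^{1/2}`, which forces `t → 0` as `η → 0`; but `t > c`.
-/

open MeasureTheory Set Filter Topology Pool.Agent.Helper3.Anderson

noncomputable section

namespace Pool.Agent.ANE

variable {d : ℕ}

private lemma w1_hs (f u : Site d → ℂ) (F : Finset (Site d)) (hu : ∀ x ∉ F, u x = 0) (v : Site d) :
    HasSum (fun x => f x * u (x + v)) (∑ y ∈ F, f (y - v) * u y) := by
  have h1 : HasSum (fun y => f (y - v) * u y) (∑ y ∈ F, f (y - v) * u y) := by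
    refine hasSum_sum_of_ne_finset_zero fun y hy => ?_
    rw [hu y hy, mul_zero]
  have h2 := (Equiv.addRight v).hasSum_iff.2 h1
  refine h2.congr_fun ?_ |> fun h => h
  intro x
  simp

private lemma w1_hs_lap (f u : Site d → ℂ) (F : Finset (Site d)) (hu : ∀ x ∉ F, u x = 0) :
    HasSum (fun x => f x * lap u x) (∑ y ∈ F, lap f y * u y) := by
  have h0 := w1_hs f u F hu 0
  have hj : ∀ j : Fin d, HasSum (fun x => (f x * u (x + Pi.single j 1) - f x * u (x + 0)) +
      (f x * u (x + -Pi.single j 1) - f x * u (x + 0)))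
      ((∑ y ∈ F, f (y - Pi.single j 1) * u y - ∑ y ∈ F, f (y - 0) * u y) +
        (∑ y ∈ F, f (y - -Pi.single j 1) * u y - ∑ y ∈ F, f (y - 0) * u y)) := by
    intro j
    exact ((w1_hs f u F hu (Pi.single j 1)).sub h0).add ((w1_hs f u F hu (-Pi.single j 1)).sub h0)
  have hs := hasSum_sum (s := Finset.univ) fun j (_ : j ∈ Finset.univ) => hj j
  have e1 : (fun x => ∑ j, ((f x * u (x + Pi.single j 1) - f x * u (x + 0)) +
      (f x * u (x + -Pi.single j 1) - f x * u (x + 0)))) = fun x => f x * lap u x := by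
    funext x
    unfold lap
    rw [Finset.mul_sum]
    refine Finset.sum_congr rfl fun j _ => ?_
    rw [add_zero, sub_eq_add_neg x]
    ring
  have e2 : ∑ j : Fin d, ((∑ y ∈ F, f (y - Pi.single j 1) * u y - ∑ y ∈ F, f (y - 0) * u y) +
        (∑ y ∈ F, f (y - -Pi.single j 1) * u y - ∑ y ∈ F, f (y - 0) * u y)) =
      ∑ y ∈ F, lap f y * u y := by
    simp_rw [← Finset.sum_sub_distrib, ← Finset.sum_add_distrib]
    rw [Finset.sum_comm]
    refine Finset.sum_congr rfl fun y _ => ?_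
    unfold lap
    rw [Finset.sum_mul]
    refine Finset.sum_congr rfl fun j _ => ?_
    rw [sub_neg_eq_add, sub_zero]
    ring
  rw [e1, e2] at hs
  exact hs

private lemma w1_key (V : Site d → ℝ) (E : ℝ) (W : Site d → ℝ) (f u : Site d → ℂ)
    (F : Finset (Site d)) (hu : ∀ x ∉ F, u x = 0) (hr : ∀ x ∉ F, rsd V E W u x = 0) :
    ∑ x ∈ F, f x * rsd V E W u x =
      ∑ x ∈ F, (-lap f x + V x * f x - E * f x) * u x -
        Complex.I * (∑ x ∈ F, W x * (f x * u x)) - f 0 := by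
  have h1 : HasSum (fun x => f x * rsd V E W u x) (∑ x ∈ F, f x * rsd V E W u x) := by
    refine hasSum_sum_of_ne_finset_zero fun y hy => ?_
    rw [hr y hy, mul_zero]
  have h2 := w1_hs_lap f u F hu
  have h3 : HasSum (fun x => (V x * f x - E * f x) * u x - Complex.I * (W x * (f x * u x)))
      (∑ x ∈ F, ((V x * f x - E * f x) * u x - Complex.I * (W x * (f x * u x)))) := by
    refine hasSum_sum_of_ne_finset_zero fun y hy => ?_
    rw [hu y hy]
    ring
  have h4 : HasSum (fun x : Site d => f x * (if x = 0 then 1 else 0)) (f 0) := by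
    have := hasSum_single (f := fun x : Site d => f x * (if x = 0 then (1 : ℂ) else 0)) 0
      (fun x hx => by rw [if_neg hx, mul_zero])
    simpa using this
  have h5 := ((h2.neg.add h3).sub h4)
  have e : (fun x => -(f x * lap u x) +
      ((V x * f x - E * f x) * u x - Complex.I * (W x * (f x * u x))) -
        f x * (if x = 0 then 1 else 0)) = fun x => f x * rsd V E W u x := by
    funext x
    unfold rsd
    ring
  rw [e] at h5
  have h6 := h1.unique h5
  rw [h6, Finset.sum_sub_distrib, ← Finset.mul_sum, ← Finset.sum_neg_distrib]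
  have e7 : ∑ x ∈ F, (-lap f x + V x * f x - E * f x) * u x =
      ∑ x ∈ F, -(lap f x * u x) + ∑ x ∈ F, (V x * f x - E * f x) * u x := by
    rw [← Finset.sum_add_distrib]
    refine Finset.sum_congr rfl fun x _ => ?_
    ring
  rw [e7]
  ring

private lemma w1_lap_conj (u : Site d → ℂ) (x : Site d) :
    lap (fun y => (starRingEnd ℂ) (u y)) x = (starRingEnd ℂ) (lap u x) := by
  unfold lap
  rw [map_sum]
  refine Finset.sum_congr rfl fun j _ => ?_
  simp only [map_add, map_sub]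

private lemma w1_lap_re (φ : Site d → ℂ) (x : Site d) :
    lap (fun y => (((φ y).re : ℝ) : ℂ)) x = (((lap φ x).re : ℝ) : ℂ) := by
  unfold lap
  rw [Complex.re_sum, Complex.ofReal_sum]
  refine Finset.sum_congr rfl fun j _ => ?_
  simp only [Complex.add_re, Complex.sub_re, Complex.ofReal_add, Complex.ofReal_sub]

private lemma w1_lap_real (u : Site d → ℂ) (F : Finset (Site d)) (hu : ∀ x ∉ F, u x = 0) :
    (∑ x ∈ F, lap (fun y => (starRingEnd ℂ) (u y)) x * u x).im = 0 := by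
  have h1 := w1_hs_lap (fun y => (starRingEnd ℂ) (u y)) u F hu
  have h2 : HasSum (fun x => lap (fun y => (starRingEnd ℂ) (u y)) x * u x)
      (∑ x ∈ F, lap (fun y => (starRingEnd ℂ) (u y)) x * u x) := by
    refine hasSum_sum_of_ne_finset_zero fun y hy => ?_
    rw [hu y hy, mul_zero]
  have h3 := (Complex.hasSum_conj'.2 h1)
  have e : (fun x => (starRingEnd ℂ) ((starRingEnd ℂ) (u x) * lap u x)) =
      fun x => lap (fun y => (starRingEnd ℂ) (u y)) x * u x := by
    funext x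
    rw [w1_lap_conj, map_mul, Complex.conj_conj]
    ring
  rw [e] at h3
  have h4 := h3.unique h2
  have h5 := congrArg Complex.im h4
  rw [Complex.conj_im] at h5
  linarith

theorem not_wit_of_sol {d : ℕ} {V : Site d → ℝ} {E c : ℝ} (hc : 0 < c) {φ : Site d → ℂ}
    (hφ : Memℓp φ 2)
    (h : ∀ x, -lap φ x + V x * φ x - E * φ x = if x = 0 then 1 else 0) :
    ∃ η0 : ℝ, 0 < η0 ∧ ∀ η : ℝ, 0 < η → η < η0 → ¬ Wit V E c η := by
  have hsum : Summable (fun x => ‖φ x‖ ^ 2) := by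
    have := hφ.summable (by norm_num : 0 < (2 : ENNReal).toReal)
    simpa using this
  set N2 : ℝ := ∑' x, ‖φ x‖ ^ 2 with hN2
  have hN0 : 0 ≤ N2 := tsum_nonneg fun x => by positivity
  have hle : ∀ x, ‖φ x‖ ^ 2 ≤ N2 := fun x => hsum.le_tsum x fun y _ => by positivity
  refine ⟨c / (3 * N2 + 4), by positivity, ?_⟩
  rintro η hη hη0 ⟨F, u, W, hu, hr, hW, hres, hcu⟩
  set f : Site d → ℂ := fun y => (((φ y).re : ℝ) : ℂ) with hf
  have hfn : ∀ x, ‖f x‖ ^ 2 ≤ ‖φ x‖ ^ 2 := by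
    intro x
    have : ‖f x‖ ≤ ‖φ x‖ := by
      rw [hf]
      simp only [Complex.norm_real, Real.norm_eq_abs]
      exact Complex.abs_re_le_norm _
    exact pow_le_pow_left₀ (norm_nonneg _) this 2
  have hfN : ∀ x, ‖f x‖ ≤ 1 + N2 := by
    intro x
    have h1 := hfn x
    have h2 := hle x
    nlinarith [norm_nonneg (f x), sq_nonneg (‖f x‖ - 1)]
  have hfeq : ∀ x, -lap f x + V x * f x - E * f x = if x = 0 then 1 else 0 := by
    intro x
    rw [hf, w1_lap_re]
    have h1 := congrArg Complex.re (h x)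
    have h2 : (-lap φ x + V x * φ x - E * φ x).re =
        -(lap φ x).re + V x * (φ x).re - E * (φ x).re := by
      simp [Complex.add_re, Complex.sub_re, Complex.mul_re]
    rw [h2] at h1
    have h3 : ((if x = 0 then (1 : ℂ) else 0)) = (((if x = 0 then (1 : ℂ) else 0).re : ℝ) : ℂ) := by
      split_ifs <;> simp
    rw [h3, ← h1]
    push_cast
    ring
  -- first identity
  have k1 := w1_key V E W f u F hu hr
  have k1' : ∑ x ∈ F, (-lap f x + V x * f x - E * f x) * u x = u 0 := by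
    simp_rw [hfeq]
    simp only [ite_mul, one_mul, zero_mul]
    rw [Finset.sum_ite_eq' F 0 u]
    split_ifs with h0
    · rfl
    · exact (hu 0 h0).symm
  rw [k1'] at k1
  -- second identity
  have k2 := w1_key V E W (fun y => (starRingEnd ℂ) (u y)) u F hu hr
  set T : ℝ := ∑ x ∈ F, W x * ‖u x‖ ^ 2 with hT
  have k2' : (∑ x ∈ F, (-lap (fun y => (starRingEnd ℂ) (u y)) x + V x * (starRingEnd ℂ) (u x) -
      E * (starRingEnd ℂ) (u x)) * u x).im = 0 := by
    have e : ∑ x ∈ F, (-lap (fun y => (starRingEnd ℂ) (u y)) x + V x * (starRingEnd ℂ) (u x) -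
        E * (starRingEnd ℂ) (u x)) * u x =
        -(∑ x ∈ F, lap (fun y => (starRingEnd ℂ) (u y)) x * u x) +
          ((∑ x ∈ F, (V x - E) * ‖u x‖ ^ 2 : ℝ) : ℂ) := by
      push_cast
      rw [← Finset.sum_neg_distrib, ← Finset.sum_add_distrib]
      refine Finset.sum_congr rfl fun x _ => ?_
      rw [← Complex.conj_mul' (u x)]
      ring
    rw [e, Complex.add_im, Complex.neg_im, w1_lap_real u F hu, Complex.ofReal_im]
    simp
  have k2'' : (∑ x ∈ F, ((W x : ℝ) : ℂ) * ((starRingEnd ℂ) (u x) * u x)) = ((T : ℝ) : ℂ) := by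
    rw [hT]
    push_cast
    refine Finset.sum_congr rfl fun x _ => ?_
    rw [Complex.conj_mul' (u x)]
  have k3 : (∑ x ∈ F, (starRingEnd ℂ) (u x) * rsd V E W u x).im = -T + (u 0).im := by
    rw [k2]
    rw [k2'', Complex.sub_im, Complex.sub_im, k2']
    simp
  have b1 : |(∑ x ∈ F, (starRingEnd ℂ) (u x) * rsd V E W u x).im| ≤ ∑ x ∈ F, ‖rsd V E W u x‖ * ‖u x‖ := by
    refine (Complex.abs_im_le_norm _).trans ((norm_sum_le _ _).trans ?_)
    refine Finset.sum_le_sum fun x _ => ?_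
    rw [norm_mul, RCLike.norm_conj]
    exact le_of_eq (mul_comm _ _)
  have b2 : ∑ x ∈ F, ‖rsd V E W u x‖ * (1 + ‖u x‖) =
      ∑ x ∈ F, ‖rsd V E W u x‖ + ∑ x ∈ F, ‖rsd V E W u x‖ * ‖u x‖ := by
    rw [← Finset.sum_add_distrib]
    refine Finset.sum_congr rfl fun x _ => ?_
    ring
  have b3 : 0 ≤ ∑ x ∈ F, ‖rsd V E W u x‖ := Finset.sum_nonneg fun x _ => norm_nonneg _
  have b4 : 0 ≤ ∑ x ∈ F, ‖rsd V E W u x‖ * ‖u x‖ :=
    Finset.sum_nonneg fun x _ => mul_nonneg (norm_nonneg _) (norm_nonneg _)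
  have hTle : T ≤ (u 0).im + η := by
    rw [k3] at b1
    have := (abs_le.1 b1).1
    linarith
  -- the first identity, imaginary part
  have k4 : (u 0).im = (∑ x ∈ F, f x * rsd V E W u x).im + (∑ x ∈ F, (W x : ℂ) * (f x * u x)).re := by
    have h1 := congrArg Complex.im k1
    rw [Complex.sub_im, Complex.sub_im] at h1
    have h2 : (f 0).im = 0 := by rw [hf]; simp
    have h3 : (Complex.I * ∑ x ∈ F, (W x : ℂ) * (f x * u x)).im = (∑ x ∈ F, (W x : ℂ) * (f x * u x)).re := by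
      simp [Complex.mul_im]
    rw [h2, h3] at h1
    linarith
  have b5 : (∑ x ∈ F, f x * rsd V E W u x).im ≤ (1 + N2) * ∑ x ∈ F, ‖rsd V E W u x‖ := by
    refine (le_abs_self _).trans ((Complex.abs_im_le_norm _).trans ((norm_sum_le _ _).trans ?_))
    rw [Finset.mul_sum]
    refine Finset.sum_le_sum fun x _ => ?_
    rw [norm_mul]
    exact mul_le_mul_of_nonneg_right (hfN x) (norm_nonneg _)
  have b6 : (∑ x ∈ F, (W x : ℂ) * (f x * u x)).re ≤ 1 / 2 * (η * N2) + 1 / 2 * T := by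
    refine (le_abs_self _).trans ((Complex.abs_re_le_norm _).trans ((norm_sum_le _ _).trans ?_))
    have e1 : ∑ x ∈ F, ‖(W x : ℂ) * (f x * u x)‖ ≤
        ∑ x ∈ F, (1 / 2 * (η * ‖φ x‖ ^ 2) + 1 / 2 * (W x * ‖u x‖ ^ 2)) := by
      refine Finset.sum_le_sum fun x _ => ?_
      have hW0 := (hW x).1
      have hW1 := (hW x).2
      rw [norm_mul, norm_mul, Complex.norm_real, Real.norm_eq_abs, abs_of_nonneg hW0]
      have h1 : ‖f x‖ * ‖u x‖ ≤ 1 / 2 * ‖f x‖ ^ 2 + 1 / 2 * ‖u x‖ ^ 2 := by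
        nlinarith [sq_nonneg (‖f x‖ - ‖u x‖)]
      have h2 : W x * ‖f x‖ ^ 2 ≤ η * ‖φ x‖ ^ 2 :=
        mul_le_mul hW1 (hfn x) (by positivity) hη.le
      have h3 := mul_le_mul_of_nonneg_left h1 hW0
      nlinarith
    have e2 : ∑ x ∈ F, (1 / 2 * (η * ‖φ x‖ ^ 2) + 1 / 2 * (W x * ‖u x‖ ^ 2)) =
        1 / 2 * (η * ∑ x ∈ F, ‖φ x‖ ^ 2) + 1 / 2 * T := by
      rw [Finset.sum_add_distrib, ← Finset.mul_sum, ← Finset.mul_sum, ← Finset.mul_sum]
    have e3 : ∑ x ∈ F, ‖φ x‖ ^ 2 ≤ N2 := hsum.sum_le_tsum F fun x _ => by positivity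
    have e4 : η * ∑ x ∈ F, ‖φ x‖ ^ 2 ≤ η * N2 := mul_le_mul_of_nonneg_left e3 hη.le
    linarith
  have b7 : (1 + N2) * ∑ x ∈ F, ‖rsd V E W u x‖ ≤ (1 + N2) * η := by
    refine mul_le_mul_of_nonneg_left ?_ (by positivity)
    linarith
  have hfin : (u 0).im ≤ η * (3 * N2 + 4) := by nlinarith
  have hη1 : η * (3 * N2 + 4) < c := by
    rw [lt_div_iff₀ (by positivity)] at hη0
    exact hη0
  linarith

/-- rank one: `χ = φ / ((V' 0 - V 0) φ 0)` solves `(-Δ + V' - E) χ = δ_0`. -/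
theorem mem_noWit_of_eigen {d : ℕ} {V V' : Site d → ℝ} {E c : ℝ} (hc : 0 < c) {φ : Site d → ℂ}
    (hφ : Memℓp φ 2) (h : ∀ x, -lap φ x + V x * φ x = E * φ x) (h0 : φ 0 ≠ 0)
    (hV : ∀ x, x ≠ 0 → V' x = V x) (hV0 : V' 0 ≠ V 0) : E ∈ NoWit V' c := by
  set a : ℂ := ((((V' 0 : ℝ) : ℂ) - ((V 0 : ℝ) : ℂ)) * φ 0)⁻¹ with ha
  have hne : (((V' 0 : ℝ) : ℂ) - ((V 0 : ℝ) : ℂ)) ≠ 0 := by
    rw [sub_ne_zero]
    intro hh
    exact hV0 (Complex.ofReal_injective hh)
  have hlap : ∀ x, lap (fun y => a * φ y) x = a * lap φ x := by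
    intro x
    unfold lap
    rw [Finset.mul_sum]
    refine Finset.sum_congr rfl fun j _ => ?_
    ring
  have hsol : ∀ x, -lap (fun y => a * φ y) x + V' x * (a * φ x) - E * (a * φ x) =
      if x = 0 then 1 else 0 := by
    intro x
    rw [hlap]
    have h1 := h x
    by_cases hx : x = 0
    · subst hx
      rw [if_pos rfl]
      have e : -(a * lap φ 0) + V' 0 * (a * φ 0) - E * (a * φ 0) =
          a * (-lap φ 0 + V 0 * φ 0 - E * φ 0) + a * ((((V' 0 : ℝ) : ℂ) - ((V 0 : ℝ) : ℂ)) * φ 0) := by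
        ring
      rw [e, h1, sub_self, mul_zero, zero_add, ha, inv_mul_cancel₀ (mul_ne_zero hne h0)]
    · rw [if_neg hx, hV x hx]
      have e : -(a * lap φ x) + V x * (a * φ x) - E * (a * φ x) =
          a * (-lap φ x + V x * φ x - E * φ x) := by
        ring
      rw [e, h1, sub_self, mul_zero]
  obtain ⟨η0, hη0, hno⟩ := not_wit_of_sol hc (hφ.const_mul a) hsol
  show ∀ᶠ k : ℕ in atTop, ¬ Wit V' E c (1 / ((k : ℝ) + 1))
  have hlim := tendsto_one_div_add_atTop_nhds_zero_nat (𝕜 := ℝ)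
  have hev := (hlim.eventually (gt_mem_nhds hη0))
  filter_upwards [hev] with k hk
  exact hno _ (by positivity) hk

end Pool.Agent.ANE
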