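import Pool.Agent.ANE.PureB
import Pool.Agent.ANE.W1
import Pool.Agent.ANE.SoftC
import Pool.Agent.ANE.Final
import Pool.Agent.Helper3.Crit.FinE

/-! # ANE PUREC: no eigenvalues in `[a,b]`.

If the probability that there is no witness at energy `E` is at most `δ < 1` for almost every `E ∈ [a,b]`
(uniformly in the absorption), then almost surely `-Δ + V` has no eigenvalue in `[a,b]`.

Fix such an `E` and let `Y` be the set of sites `y` with a solution of `(-Δ + V - E) φ = δ_y` in `ℓ²`.  The event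
that `y ∉ Y` and some `z ∈ Y` has a solution not zero at `y` contains at most one value of `V y`
(`hasSol_of_two`), so it is null.  Hence almost surely `Y` is empty or everything (`none_or_all`); the event that
it is everything is shift invariant, so it has probability `0` or `1` (`zero_one`), and it is contained in the
event that there is no witness (`not_wit_of_sol`), so it is null.  Spectral averaging (`eig_avoid`) finishes.
-/

open MeasureTheory Set Filter Topology Pool.Agent.Helper3.Anderson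
open scoped ENNReal NNReal

noncomputable section

namespace Pool.Agent.ANE

open Pool.Agent.Helper3.Crit

variable {d : ℕ} {μ : Measure ℝ} [IsProbabilityMeasure μ] {M lam : ℝ} {K : ℝ≥0}

omit [IsProbabilityMeasure μ] in
lemma mu_singleton (hμ : GoodLaw μ M K) (t : ℝ) : μ {t} = 0 := by
  have h1 := hμ.dens {t}
  rw [Measure.smul_apply, Real.volume_singleton, smul_zero] at h1
  exact le_antisymm h1 zero_le

lemma ae_coord {s : Set ℝ} (hs : μ s = 0) : ∀ᵐ ω ∂(PP d μ), ∀ x : Site d, ω x ∉ s := by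
  rw [ae_all_iff]
  intro x
  have h1 : MeasurePreserving (fun ω : Site d → ℝ => ω x) (PP d μ) μ :=
    measurePreserving_eval_infinitePi (fun _ : Site d => μ) x
  have h2 : ∀ᵐ t ∂μ, t ∉ s := by
    rw [ae_iff]
    simpa using hs
  exact h1.quasiMeasurePreserving.ae h2

/-- probability of no witness at a fixed energy -/
lemma prob_noWit_le {E c δ : ℝ} (hδ : 0 ≤ δ) (hE : ∀ k : ℕ,
      (PP d μ).real {ω | ¬ Wit (potc M lam ω) E c (1 / ((k : ℝ) + 1))} ≤ δ) :
    PP d μ {ω | E ∈ NoWit (potc M lam ω) c} ≤ ENNReal.ofReal δ := by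
  have h1 : {ω : Site d → ℝ | E ∈ NoWit (potc M lam ω) c} =
      ⋃ n : ℕ, {ω : Site d → ℝ | ∀ k ≥ n, ¬ Wit (potc M lam ω) E c (1 / ((k : ℝ) + 1))} := by
    ext ω
    rw [mem_iUnion]
    exact eventually_atTop
  have hmono : Monotone fun n : ℕ =>
      {ω : Site d → ℝ | ∀ k ≥ n, ¬ Wit (potc M lam ω) E c (1 / ((k : ℝ) + 1))} := by
    intro m n hmn ω hω k hk
    exact hω k (hmn.trans hk)
  rw [h1, hmono.measure_iUnion]
  refine iSup_le fun n => ?_
  have h3 : PP d μ {ω : Site d → ℝ | ∀ k ≥ n, ¬ Wit (potc M lam ω) E c (1 / ((k : ℝ) + 1))} ≤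
      PP d μ {ω | ¬ Wit (potc M lam ω) E c (1 / ((n : ℝ) + 1))} :=
    measure_mono fun ω hω => hω n le_rfl
  refine h3.trans ?_
  have h2 := hE n
  rw [measureReal_def] at h2
  exact (ENNReal.le_ofReal_iff_toReal_le (measure_ne_top _ _) hδ).2 h2

lemma measurableSet_slice {N : Set (ℝ × (Site d → ℝ))} (hN : MeasurableSet N) (E : ℝ) :
    MeasurableSet {ω : Site d → ℝ | (E, ω) ∈ N} := by
  have h2 : Measurable fun ω : Site d → ℝ => (E, ω) := measurable_const.prodMk measurable_id
  exact h2 hN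

/-- a solution for a site of `Y` is almost surely zero off `Y` -/
lemma ae_not_ne (hμ : GoodLaw μ M K) (hlam : 0 < lam) (E : ℝ) (z y : Site d) :
    ∀ᵐ ω ∂(PP d μ), ¬ (HasSolNe (potc M lam ω) E z y ∧ ¬ HasSol (potc M lam ω) E y) := by
  obtain ⟨B, hB⟩ : ∃ B : Set (Site d → ℝ),
      B = {ω | HasSolNe (potc M lam ω) E z y ∧ ¬ HasSol (potc M lam ω) E y} := ⟨_, rfl⟩
  have hBm : MeasurableSet B := by
    rw [hB]
    exact (measurableSet_slice (measurableSet_hasSolNe M lam z y) E).inter
      (measurableSet_slice (measurableSet_hasSol M lam y) E).compl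
  have h0 : PP d μ B = 0 := by
    have h1 := lintegral_resample (μ := μ) y (F := B.indicator 1) (measurable_one.indicator hBm)
    rw [lintegral_indicator_one hBm] at h1
    refine h1.trans ?_
    rw [lintegral_eq_zero_of_ae_eq_zero]
    refine Eventually.of_forall fun ω => ?_
    change ∫⁻ t, B.indicator 1 (Function.update ω y t) ∂μ = 0
    have hum : Measurable fun t : ℝ => Function.update ω y t := measurable_update ω
    have h2 : (fun t : ℝ => B.indicator (1 : (Site d → ℝ) → ℝ≥0∞) (Function.update ω y t)) =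
        ((fun t : ℝ => Function.update ω y t) ⁻¹' B).indicator 1 := by
      funext t
      rfl
    rw [h2, lintegral_indicator_one (hum hBm)]
    have h3 : (fun t : ℝ => Function.update ω y t) ⁻¹' B ⊆
        (Icc (-M) M)ᶜ ∪ ((fun t : ℝ => Function.update ω y t) ⁻¹' B ∩ Icc (-M) M) := by
      intro t ht
      by_cases h4 : t ∈ Icc (-M) M
      · exact Or.inr ⟨ht, h4⟩
      · exact Or.inl h4
    refine measure_mono_null h3 (measure_union_null hμ.supp ?_)
    have h5 : ((fun t : ℝ => Function.update ω y t) ⁻¹' B ∩ Icc (-M) M).Subsingleton := by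
      rintro t ⟨ht, htM⟩ s ⟨hs, hsM⟩
      by_contra hne
      rw [mem_preimage, hB] at ht hs
      obtain ⟨⟨φ, h6, h7, -⟩, h8⟩ := ht
      refine h8 (hasSol_of_two (V := potc M lam (Function.update ω y t))
        (V' := potc M lam (Function.update ω y s)) (z := z) ?_ ?_ ⟨φ, h6, h7⟩ hs.1)
      · intro x hx
        unfold potc
        rw [Function.update_of_ne hx, Function.update_of_ne hx]
      · unfold potc
        rw [Function.update_self, Function.update_self, clip_of_abs_le (abs_le.2 htM),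
          clip_of_abs_le (abs_le.2 hsM)]
        intro h9
        exact hne (mul_left_cancel₀ hlam.ne' h9).symm
    rcases h5.eq_empty_or_singleton with h6 | ⟨t, h6⟩
    · rw [h6, measure_empty]
    · rw [h6]
      exact mu_singleton hμ t
  rw [ae_iff]
  rw [hB] at h0
  simpa only [not_not] using h0

lemma lap_shift (φ : Site d → ℂ) (v z : Site d) :
    lap (fun z => φ (z + v)) z = lap φ (z + v) := by
  unfold lap
  refine Finset.sum_congr rfl fun j _ => ?_
  dsimp only
  rw [add_right_comm z (Pi.single j 1) v, show z - Pi.single j 1 + v = z + v - Pi.single j 1 by abel]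

lemma hasSol_tr {ω : Site d → ℝ} {E : ℝ} {v y : Site d}
    (h : HasSol (potc M lam ω) E (y + v)) : HasSol (potc M lam (tr v ω)) E y := by
  obtain ⟨φ, hφ, hs⟩ := h
  refine ⟨fun x => φ (x + v), memℓp_comp_add v hφ, fun x => ?_⟩
  rw [lap_shift]
  have h1 := hs (x + v)
  have h2 : potc M lam (tr v ω) x = potc M lam ω (x + v) := rfl
  rw [h2]
  change -lap φ (x + v) + potc M lam ω (x + v) * φ (x + v) - E * φ (x + v) = _
  rw [h1]
  by_cases hx : x = y
  · rw [if_pos hx, if_pos (by rw [hx])]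
  · rw [if_neg hx, if_neg fun h => hx (add_right_cancel h)]

/-- almost surely no site has a solution -/
theorem ae_no_sol (hd : 0 < d) (hμ : GoodLaw μ M K) (hlam : 0 < lam) {E c δ : ℝ} (hc : 0 < c)
    (hδ : δ < 1) (hE : ∀ k : ℕ,
      (PP d μ).real {ω | ¬ Wit (potc M lam ω) E c (1 / ((k : ℝ) + 1))} ≤ δ) :
    ∀ᵐ ω ∂(PP d μ), ∀ y, ¬ HasSol (potc M lam ω) E y := by
  have hM : 0 ≤ M := by linarith [hμ.one_le]
  have hδ0 : 0 ≤ δ := measureReal_nonneg.trans (hE 0)
  have h1 : ∀ᵐ ω ∂(PP d μ), ∀ z y, ¬ (HasSolNe (potc M lam ω) E z y ∧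
      ¬ HasSol (potc M lam ω) E y) := by
    rw [ae_all_iff]
    intro z
    rw [ae_all_iff]
    exact fun y => ae_not_ne hμ hlam E z y
  obtain ⟨U, hU⟩ : ∃ U : Set (Site d → ℝ), U = {ω | ∀ y, HasSol (potc M lam ω) E y} := ⟨_, rfl⟩
  have hUm : MeasurableSet U := by
    have h2 : U = ⋂ y, {ω | HasSol (potc M lam ω) E y} := by
      rw [hU]
      ext ω
      simp
    rw [h2]
    exact MeasurableSet.iInter fun y => measurableSet_slice (measurableSet_hasSol M lam y) E
  have hUinv : ∀ v : Site d, tr v ⁻¹' U = U := by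
    have h3 : ∀ (v : Site d) (ω : Site d → ℝ), ω ∈ U → tr v ω ∈ U := by
      intro v ω hω
      rw [hU] at hω ⊢
      intro y
      exact hasSol_tr (hω (y + v))
    intro v
    ext ω
    constructor
    · intro hω
      have h4 := h3 (-v) _ hω
      have h5 : tr (-v) (tr v ω) = ω := by
        funext z
        unfold tr
        rw [neg_add_cancel_right]
      rwa [h5] at h4
    · exact fun hω => h3 v ω hω
  have hU1 : PP d μ U < 1 := by
    have h3 : U ⊆ {ω | E ∈ NoWit (potc M lam ω) c} := by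
      intro ω hω
      rw [hU] at hω
      obtain ⟨φ, hφ, hs⟩ := hω 0
      obtain ⟨η0, hη0, hno⟩ := not_wit_of_sol hc hφ hs
      change ∀ᶠ k : ℕ in atTop, ¬ Wit (potc M lam ω) E c (1 / ((k : ℝ) + 1))
      have hlim := tendsto_one_div_add_atTop_nhds_zero_nat (𝕜 := ℝ)
      have hev := (hlim.eventually (gt_mem_nhds hη0))
      filter_upwards [hev] with k hk
      exact hno _ (by positivity) hk
    refine (measure_mono h3).trans_lt ((prob_noWit_le hδ0 hE).trans_lt ?_)
    rw [← ENNReal.ofReal_one]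
    exact (ENNReal.ofReal_lt_ofReal_iff one_pos).2 hδ
  have hU0 : PP d μ U = 0 := by
    rcases zero_one (μ := μ) hd hUm hUinv with h3 | h3
    · exact h3
    · exact absurd h3 hU1.ne
  have hUae : ∀ᵐ ω ∂(PP d μ), ω ∉ U := by
    rw [ae_iff]
    simp only [not_not]
    exact hU0
  filter_upwards [h1, hUae] with ω hω1 hω2
  rcases none_or_all (potc M lam ω) (bdd_potc hM ω) (E := E)
    (fun z y _ hy hz => hω1 z y ⟨hz, hy⟩) with h4 | h4
  · exact h4
  · exact absurd (by rw [hU]; exact h4) hω2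

/-- no eigenvalues in `[a,b]` -/
theorem ae_no_eigen (hd : 0 < d) (hμ : GoodLaw μ M K) (hlam : 0 < lam) {a b c δ : ℝ} (hc : 0 < c)
    (hδ : δ < 1) (h : ∀ᵐ E : ℝ, E ∈ Icc a b → ∀ k : ℕ,
      (PP d μ).real {ω | ¬ Wit (potc M lam ω) E c (1 / ((k : ℝ) + 1))} ≤ δ) :
    ∀ᵐ ω ∂(PP d μ), ∀ E ∈ Icc a b, ∀ φ : Site d → ℂ, IsEigen (potc M lam ω) E φ → φ = 0 := by
  have hM : 0 ≤ M := by linarith [hμ.one_le]
  have hsite : ∀ y : Site d, ∀ᵐ ω ∂(PP d μ), ∀ E ∈ Icc a b, ∀ φ : Site d → ℂ,
      IsEigen (potc M lam ω) E φ → φ y = 0 := by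
    intro y
    obtain ⟨N, hN⟩ : ∃ N : Set (ℝ × (Site d → ℝ)),
        N = {q | q.1 ∈ Icc a b ∧ HasSol (potc M lam q.2) q.1 y} := ⟨_, rfl⟩
    have hNm : MeasurableSet N := by
      rw [hN]
      exact (measurable_fst measurableSet_Icc).inter (measurableSet_hasSol M lam y)
    have hN0 : ∀ᵐ E : ℝ, ∀ᵐ ω ∂(PP d μ), (E, ω) ∉ N := by
      filter_upwards [h] with E hE
      by_cases hEm : E ∈ Icc a b
      · filter_upwards [ae_no_sol hd hμ hlam hc hδ (hE hEm)] with ω hω hcon
        rw [hN] at hcon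
        exact hω y hcon.2
      · refine Eventually.of_forall fun ω hcon => hEm ?_
        rw [hN] at hcon
        exact hcon.1
    have h1 := ae_resample (μ := μ) y hNm hN0
    have h2 : ∀ᵐ t ∂μ, t ∈ Icc (-M) M := by
      rw [ae_iff]
      exact hμ.supp
    have hne : (ae μ).NeBot := inferInstance
    obtain ⟨t0, ht1, ht2⟩ := (h1.and h2).exists
    have h3 := ae_coord (d := d) (mu_singleton hμ t0)
    have h4 := ae_coord (d := d) (μ := μ) hμ.supp
    filter_upwards [eig_avoid hμ hlam y t0 hNm ht1, h3, h4] with ω h5 h6 h7 E hE φ hφ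
    by_contra hφy
    have h8 : schr (potc M lam ω) (bdd_potc (zero_le_one.trans hμ.one_le) ω)
        (⟨φ, hφ.1⟩ : L2 d) = (E : ℂ) • (⟨φ, hφ.1⟩ : L2 d) := by
      ext x
      simp only [schr_apply, lp.coeFn_smul, Pi.smul_apply, smul_eq_mul]
      exact hφ.2 x
    refine h5 E (⟨φ, hφ.1⟩ : L2 d) h8 hφy ?_
    rw [hN]
    refine ⟨hE, hasSol_of_eigen (V := potc M lam ω) ?_ ?_ hφ.1 hφ.2 hφy⟩
    · intro x hx
      change lam * clip M (Function.update ω y t0 x) = lam * clip M (ω x)
      rw [Function.update_of_ne hx]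
    · change lam * clip M (Function.update ω y t0 y) ≠ lam * clip M (ω y)
      rw [Function.update_self, clip_of_abs_le (abs_le.2 ht2),
        clip_of_abs_le (abs_le.2 (notMem_compl_iff.1 (h7 y)))]
      intro h9
      exact h6 y (mul_left_cancel₀ hlam.ne' h9).symm
  rw [← ae_all_iff] at hsite
  filter_upwards [hsite] with ω hω E hE φ hφ
  funext y
  exact hω y E hE φ hφ

/-- Almost surely `-Δ + lam ω` has no eigenvalue in `[a,b]`. -/
theorem ae_no_eigen_of_out (hd : 0 < d) (hμ : GoodLaw μ M K) (hlam : 0 < lam) {a b c δ : ℝ}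
    (hc : 0 < c) (hδ : δ < 1) (h : AndOut d μ lam a b c δ) :
    ∀ᵐ ω ∂(siteLaw d μ), ∀ E ∈ Icc a b, ∀ φ : Site d → ℂ,
      IsEigen (fun x => lam * ω x) E φ → φ = 0 := by
  have hM : 0 ≤ M := by linarith [hμ.one_le]
  have h1 := ae_no_eigen hd hμ hlam hc hδ (prob_of_out hM hμ.supp hc.le h)
  have h2 := ae_coord (d := d) (μ := μ) hμ.supp
  filter_upwards [h1, h2] with ω hω hb
  have h5 : potc M lam ω = fun x => lam * ω x := by
    funext x
    rw [potc, clip_of_abs_le (abs_le.2 (notMem_compl_iff.1 (hb x)))]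
  rwa [h5] at hω

end Pool.Agent.ANE
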