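import Pool.Agent.Helper3.Crit.FinG
import Pool.Agent.Helper3.Anderson.Model

/-! # ANE (soft end of the AND project): definitions.

`H = -Δ + V` on `ℓ²(ℤ^d)`.  The continuous spectral subspace is the orthogonal complement of all
eigenvectors.
-/

open MeasureTheory Set Filter Topology Pool.Agent.Helper3.Anderson

noncomputable section

namespace Pool.Agent.ANE

open Pool.Agent.Helper3.Crit

/-- every eigenvector of `-Δ + V` is orthogonal to `ψ` -/
def OrthEig {d : ℕ} (V : Site d → ℝ) (hV : Bdd V) (ψ : L2 d) : Prop :=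
  ∀ (E : ℝ) (φ : L2 d), schr V hV φ = (E : ℂ) • φ → inner ℂ φ ψ = 0

/-- there is a vector of the continuous spectral subspace whose spectral measure charges `[a,b]` -/
def ContIn {d : ℕ} (V : Site d → ℝ) (hV : Bdd V) (a b : ℝ) : Prop :=
  ∃ (ψ : L2 d) (ν : Measure ℝ), OrthEig V hV ψ ∧ PP.IsSpec (schr V hV) ψ ν ∧ ν (Icc a b) ≠ 0

/-- the energies in `[a,b]` with `Im G_xx(E + i ε) ≥ c` -/
def goodE {d : ℕ} (V : Site d → ℝ) (x : Site d) (a b c ε : ℝ) : Set ℝ :=
  {E | E ∈ Icc a b ∧ c ≤ (green V ((E : ℂ) + (ε : ℂ) * Complex.I) x x).im}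

end Pool.Agent.ANE
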