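import Pool.Agent.ANE.WDefs

/-! # ANE W3: measurability.  For fixed `F, u, W` the condition in `Wit` is an open condition in
`(E, V)` (product topology; it involves finitely many coordinates: `∀ x ∉ F, rsd V E W u x = 0` does not depend
on `V`, `E`, `W` because `u x = 0` there), so `{(E, V) | Wit V E c η}` is a union of open sets, hence open;
`ω ↦ potc M lam ω` is continuous (`continuous_clip`), and the Borel σ-algebra of `ℝ × (Site d → ℝ)` is the
product one (second countable). -/

open MeasureTheory Set Filter Topology Pool.Agent.Helper3.Anderson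

noncomputable section

namespace Pool.Agent.ANE

open Pool.Agent.Kin

theorem isOpen_wit {d : ℕ} (c η : ℝ) :
    IsOpen {q : ℝ × (Site d → ℝ) | Wit q.2 q.1 c η} := by
  rw [isOpen_iff_forall_mem_open]
  rintro q ⟨F, u, W, hu, hr, hW, hs, hc⟩
  refine ⟨{p : ℝ × (Site d → ℝ) | ∑ x ∈ F, ‖rsd p.2 p.1 W u x‖ * (1 + ‖u x‖) < η}, ?_, ?_, hs⟩
  · intro p hp
    refine ⟨F, u, W, hu, fun x hx => ?_, hW, hp, hc⟩
    have h1 := hr x hx
    simp only [rsd, hu x hx, mul_zero] at h1 ⊢
    exact h1
  · refine isOpen_lt (continuous_finsetSum _ fun x _ => ?_) continuous_const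
    refine Continuous.mul (Continuous.norm ?_) continuous_const
    unfold rsd
    refine Continuous.sub (Continuous.sub (Continuous.sub (Continuous.add continuous_const ?_) ?_)
      continuous_const) continuous_const
    · exact (Complex.continuous_ofReal.comp ((continuous_apply x).comp continuous_snd)).mul
        continuous_const
    · exact (Complex.continuous_ofReal.comp continuous_fst).mul continuous_const

theorem measurableSet_wit {d : ℕ} {M lam : ℝ} (c η : ℝ) :
    MeasurableSet {q : ℝ × (Site d → ℝ) | Wit (potc M lam q.2) q.1 c η} := by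
  have hcont : Continuous fun q : ℝ × (Site d → ℝ) => (q.1, potc M lam q.2) := by
    refine continuous_fst.prodMk (continuous_pi fun x => ?_)
    exact continuous_const.mul ((continuous_clip M).comp ((continuous_apply x).comp continuous_snd))
  exact ((isOpen_wit c η).preimage hcont).measurableSet

theorem measurableSet_noWit {d : ℕ} {M lam : ℝ} (c : ℝ) :
    MeasurableSet {q : ℝ × (Site d → ℝ) | q.1 ∈ NoWit (potc M lam q.2) c} := by
  have h1 : {q : ℝ × (Site d → ℝ) | q.1 ∈ NoWit (potc M lam q.2) c}
      = ⋃ N : ℕ, ⋂ k : ℕ, ⋂ _ : N ≤ k,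
        {q : ℝ × (Site d → ℝ) | Wit (potc M lam q.2) q.1 c (1 / ((k : ℝ) + 1))}ᶜ := by
    ext q
    simp only [NoWit, mem_ofPred_eq, mem_iUnion, mem_iInter, mem_compl_iff, eventually_atTop]
  rw [h1]
  exact MeasurableSet.iUnion fun N => MeasurableSet.iInter fun k => MeasurableSet.iInter fun _ =>
    (measurableSet_wit c _).compl

theorem isOpen_witT {d L : ℕ} [NeZero L] (E c η : ℝ) :
    IsOpen {V : Tor d L → ℝ | WitT L V E c η} := by
  rw [isOpen_iff_forall_mem_open]
  rintro V ⟨u, W, hW, hu, hs, hc⟩
  refine ⟨{V' : Tor d L → ℝ | ∑ x, ‖rsdT V' E W u x‖ * (1 + ‖u x‖) < η}, ?_, ?_, hs⟩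
  · intro V' hV'
    exact ⟨u, W, hW, hu, hV', hc⟩
  · refine isOpen_lt (continuous_finsetSum _ fun x _ => ?_) continuous_const
    refine Continuous.mul (Continuous.norm ?_) continuous_const
    unfold rsdT
    refine Continuous.sub (Continuous.sub (Continuous.sub (Continuous.add continuous_const ?_)
      continuous_const) continuous_const) continuous_const
    exact (Complex.continuous_ofReal.comp (continuous_apply x)).mul continuous_const

end Pool.Agent.ANE
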