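import Pool.Agent.ANE.WDefs

/-! # ANE W4 (deterministic spectral theory).  `D` contains all eigenvalues in `[a,b]` that have an
eigenfunction which is not zero at `x`; if the spectral measure of `δ_x` charges `[a,b] \ D`, then there is
continuous spectrum in `[a,b]`.

Proof.  `S1` = eigenvectors `φ` with an eigenvalue `E` such that `E ∈ [a,b]` implies `E ∈ D`; `S2` = the other
eigenvectors (eigenvalue in `[a,b] \ D`): for them `φ x = 0`, that is `⟪φ, δ_x⟫ = 0`.  `K` = closure of the span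
of `S1`, `δ_x = u + w`, `u ∈ K`, `w ∈ Kᗮ` (`Submodule.exists_add_mem_mem_orthogonal` or `starProjection`; `L2 d` is
complete).  `S2 ⊥ S1` (different eigenvalues, `H` self-adjoint), so `S2 ⊥ u`, hence `S2 ⊥ w`: `w` is orthogonal to
ALL eigenvectors (`OrthEig`).  Let `ν_w`, `ν_u` be spectral measures (`PP.exists_specMeasure`); suppose
`ν_w [a,b] = 0` (else done).  Let `Q ⊂ [a,b] \ D` be compact, `f_n ↓ 1_Q` continuous, `0 ≤ f_n ≤ 1`
(`thickenedIndicator`); `‖f(H) v‖² = ∫ f² dν_v` (`PP.IsSpec.norm_sq`), so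
`∫ f² dν ≤ 2 ∫ f² dν_u + 2 ∫ f² dν_w`, in the limit `ν Q ≤ 2 ν_u Q + 2 ν_w Q`.  For `u1` in the span of `S1`:
`ν_u Q ≤ 2 ν_{u1} Q + 2 ‖u - u1‖²` in the same way, and `ν_{u1} Q = 0`: `f(H) φ = f(E) φ` (`cfc_eigenvector`), so
`‖f_n(H) u1‖ → 0` because none of the finitely many eigenvalues is in `Q`.  So `ν Q = 0` for all compact
`Q ⊂ [a,b] \ D`, and by inner regularity `ν ([a,b] \ D) = 0`.
-/

open MeasureTheory Set Filter Topology Pool.Agent.Helper3.Anderson

noncomputable section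

namespace Pool.Agent.ANE

open Pool.Agent.Helper3.Crit

open scoped InnerProductSpace

/-- functions of the operator at a vector of the span of eigenvectors with eigenvalues off `C` -/
private lemma w4_span {d : ℕ} (V : Site d → ℝ) (hV : Bdd V) {C : Set ℝ} (hC : IsClosed C)
    (hne : C.Nonempty) {S : Set (L2 d)}
    (hS : ∀ φ ∈ S, ∃ E : ℝ, E ∉ C ∧ schr V hV φ = (E : ℂ) • φ) {u : L2 d}
    (hu : u ∈ Submodule.span ℂ S) :
    Tendsto (fun m => ‖cfc (apx C m) (schr V hV) u‖) atTop (𝓝 0) := by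
  have hH := isSelfAdjoint_schr V hV
  induction hu using Submodule.span_induction with
  | mem φ hφ =>
    obtain ⟨E, hE, hφE⟩ := hS φ hφ
    have h1 : ∀ m, ‖cfc (apx C m) (schr V hV) φ‖ = ‖apx C m E‖ * ‖φ‖ := by
      intro m
      rw [PP.cfc_eigenvector hH hφE (continuous_apx C m), norm_smul]
    simp only [h1]
    have h2 : Tendsto (fun m => ‖apx C m E‖) atTop (𝓝 0) := by
      have h3 := (tendsto_apx hC hne E).sqrt
      rw [indicator_of_notMem hE, Real.sqrt_zero] at h3
      refine h3.congr fun m => ?_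
      rw [Real.sqrt_sq (norm_nonneg _)]
    have h3 := h2.mul_const ‖φ‖
    rw [zero_mul] at h3
    exact h3
  | zero => simp
  | add a b _ _ ha hb =>
    have h1 := ha.add hb
    rw [add_zero] at h1
    refine squeeze_zero (fun m => norm_nonneg _) (fun m => ?_) h1
    rw [map_add]
    exact norm_add_le _ _
  | smul c a _ ha =>
    have h1 := ha.const_mul ‖c‖
    rw [mul_zero] at h1
    refine h1.congr fun m => ?_
    rw [map_smul, norm_smul]

/-- the same in the closure of the span -/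
private lemma w4_closure {d : ℕ} (V : Site d → ℝ) (hV : Bdd V) {C : Set ℝ} (hC : IsClosed C)
    (hne : C.Nonempty) {S : Set (L2 d)}
    (hS : ∀ φ ∈ S, ∃ E : ℝ, E ∉ C ∧ schr V hV φ = (E : ℂ) • φ) {u : L2 d}
    (hu : u ∈ (Submodule.span ℂ S).topologicalClosure) :
    Tendsto (fun m => ‖cfc (apx C m) (schr V hV) u‖) atTop (𝓝 0) := by
  rw [Metric.tendsto_atTop]
  intro ε hε
  obtain ⟨u1, hu1, hd⟩ := Metric.mem_closure_iff.1 hu (ε / 2) (by positivity)
  have h1 := w4_span V hV hC hne hS (u := u1) hu1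
  obtain ⟨N, hN⟩ := (Metric.tendsto_atTop.1 h1) (ε / 2) (by positivity)
  refine ⟨N, fun m hm => ?_⟩
  have h2 := hN m hm
  rw [Real.dist_eq, sub_zero, abs_of_nonneg (norm_nonneg _)] at h2 ⊢
  have h3 : cfc (apx C m) (schr V hV) u = cfc (apx C m) (schr V hV) (u - u1) +
      cfc (apx C m) (schr V hV) u1 := by
    rw [← map_add, sub_add_cancel]
  have h4 : ‖cfc (apx C m) (schr V hV) (u - u1)‖ ≤ ‖u - u1‖ :=
    norm_cfc_le_norm V hV _ (continuous_apx C m) (norm_apx_le C m)
  rw [dist_eq_norm] at hd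
  rw [h3]
  calc ‖cfc (apx C m) (schr V hV) (u - u1) + cfc (apx C m) (schr V hV) u1‖ ≤
      ‖cfc (apx C m) (schr V hV) (u - u1)‖ + ‖cfc (apx C m) (schr V hV) u1‖ := norm_add_le _ _
    _ < ε := by linarith

theorem contIn_of_diff {d : ℕ} (V : Site d → ℝ) (hV : Bdd V) (x : Site d) {ν : Measure ℝ}
    (hν : PP.IsSpec (schr V hV) (lp.single 2 x (1 : ℂ) : L2 d) ν) {a b : ℝ} {D : Set ℝ}
    (hD : MeasurableSet D)
    (h : ∀ E ∈ Icc a b, ∀ φ : L2 d, schr V hV φ = (E : ℂ) • φ → φ x ≠ 0 → E ∈ D)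
    (hne : ν (Icc a b \ D) ≠ 0) : ContIn V hV a b := by
  classical
  have hH := isSelfAdjoint_schr V hV
  have hfin := hν.fin
  obtain ⟨S, hS⟩ : ∃ S : Set (L2 d), S = {φ | ∃ E : ℝ, schr V hV φ = (E : ℂ) • φ ∧
      (E ∈ Icc a b → E ∈ D)} := ⟨_, rfl⟩
  obtain ⟨q, hq, w, hw, hqw⟩ := Submodule.exists_add_mem_mem_orthogonal
    (K := (Submodule.span ℂ S).topologicalClosure) (lp.single 2 x (1 : ℂ) : L2 d)
  -- different eigenvalues
  have horth : ∀ (E E' : ℝ) (φ φ' : L2 d), E ≠ E' → schr V hV φ = (E : ℂ) • φ →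
      schr V hV φ' = (E' : ℂ) • φ' → ⟪φ, φ'⟫_ℂ = 0 := by
    intro E E' φ φ' hne hφ hφ'
    have h1 := inner_schr V hV φ φ'
    rw [hφ, hφ', inner_smul_left, inner_smul_right, Complex.conj_ofReal] at h1
    have h2 : (((E : ℝ) : ℂ) - ((E' : ℝ) : ℂ)) * ⟪φ, φ'⟫_ℂ = 0 := by
      linear_combination h1
    rcases mul_eq_zero.1 h2 with h3 | h3
    · exact absurd (by exact_mod_cast sub_eq_zero.1 h3) hne
    · exact h3
  have hw' : OrthEig V hV w := by
    intro E φ hφ
    by_cases hE : E ∈ Icc a b → E ∈ D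
    · have hφS : φ ∈ (Submodule.span ℂ S).topologicalClosure := by
        refine Submodule.le_topologicalClosure _ (Submodule.subset_span ?_)
        rw [hS]
        exact ⟨E, hφ, hE⟩
      exact (Submodule.mem_orthogonal _ _).1 hw φ hφS
    · push Not at hE
      have hφx : φ x = 0 := by
        by_contra h0
        exact hE.2 (h E hE.1 φ hφ h0)
      have h1 : ⟪φ, (lp.single 2 x (1 : ℂ) : L2 d)⟫_ℂ = 0 := by
        rw [← inner_conj_symm, lp.inner_single_left]
        simp [hφx]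
      have h2 : ⟪φ, q⟫_ℂ = 0 := by
        have h3 : (Submodule.span ℂ S).topologicalClosure ≤ (ℂ ∙ φ)ᗮ := by
          refine Submodule.topologicalClosure_minimal _ ?_ (Submodule.isClosed_orthogonal _)
          rw [Submodule.span_le]
          intro φ' hφ'
          rw [hS] at hφ'
          obtain ⟨E', hE', hE'D⟩ := hφ'
          have hne' : E ≠ E' := by
            rintro rfl
            exact hE.2 (hE'D hE.1)
          exact (Submodule.mem_orthogonal_singleton_iff_inner_right).2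
            (horth E E' φ φ' hne' hφ hE')
        exact Submodule.mem_orthogonal_singleton_iff_inner_right.1 (h3 hq)
      rw [hqw, inner_add_right, h2, zero_add] at h1
      exact h1
  obtain ⟨νw, hνw⟩ := exists_isSpec V hV w
  refine ⟨w, νw, hw', hνw, fun h0 => hne ?_⟩
  rw [(measurableSet_Icc.diff hD).measure_eq_iSup_isClosed_of_ne_top (measure_ne_top ν _)]
  simp only [ENNReal.iSup_eq_zero]
  intro C hCB hC
  by_cases hCne : C.Nonempty
  swap
  · rw [not_nonempty_iff_eq_empty] at hCne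
    rw [hCne]; simp
  have h1 := tendsto_apx_cfc V hV w hνw hC hCne
    (measure_mono_null (hCB.trans sdiff_subset) h0)
  have h2 := w4_closure V hV hC hCne (S := S) (by
    intro φ hφ
    rw [hS] at hφ
    obtain ⟨E, hE, hED⟩ := hφ
    refine ⟨E, fun hEC => ?_, hE⟩
    have h3 := hCB hEC
    exact h3.2 (hED h3.1)) hq
  have h3 := h2.add h1
  rw [add_zero] at h3
  have h4 : Tendsto (fun m => (‖cfc (apx C m) (schr V hV) q‖ +
      ‖cfc (apx C m) (schr V hV) w‖) ^ 2) atTop (𝓝 0) := by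
    have := h3.pow 2
    rwa [zero_pow two_ne_zero] at this
  have h5 : ν.real C ≤ 0 := by
    refine ge_of_tendsto' h4 fun m => ?_
    refine (measure_le_apx V hV _ hν hC m).trans ?_
    refine pow_le_pow_left₀ (norm_nonneg _) ?_ 2
    rw [hqw, map_add]
    exact norm_add_le _ _
  have h6 : ν.real C = 0 := le_antisymm h5 measureReal_nonneg
  rwa [measureReal_eq_zero_iff] at h6

end Pool.Agent.ANE
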