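import Pool.Agent.ANE.WDefs

/-! # ANE W5: for small potentials some site of a fixed finite set has a spectral measure that charges
`[a,b] ⊂ [0,4d]`.

W5a (`exists_weyl`): plane waves.  `E0 = (a+b)/2 ∈ (0,4d)`, `cos k = 1 - E0/(2d)`, `ψ_N(x) = exp(i k ∑ x_j)` for
`x ∈ [0,N)^d`, `0` otherwise.  `(-lap - E0) ψ_N` vanishes at the points of `[1,N-1)^d` and off `[-1,N+1)^d`, it is
bounded by `6 d` everywhere; so `‖(-lap - E0) ψ_N‖² ≤ (6d)² ((N+2)^d - (N-2)^d) ≤ ε² N^d = ε² ‖ψ_N‖²` for large `N`.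
W5b: `r = (b-a)/2`, `ε = κ = r/8`: `‖(H - E0) ψ‖ ≤ (r/4) ‖ψ‖`.  `f(t) = max 0 (min 1 (2 - 2|t - E0|/r))`
(`0 ≤ f ≤ 1`, `f = 0` off `[a,b]`, `1 - f ≤ 2|t - E0|/r`).  `‖ψ - f(H) ψ‖² = ∫ (1-f)² dν_ψ ≤ (4/r²) ‖(H-E0)ψ‖² ≤
‖ψ‖²/4` (`PP.IsSpec.norm_sq`, `PP.IsSpec.norm_sub_sq`), so `‖ψ‖/2 ≤ ‖f(H) ψ‖ ≤ ∑ |ψ_x| ‖f(H) δ_x‖ ≤ ∑_{x ∈ F} |ψ_x|
(ν_x [a,b])^{1/2}`; `c3 = (‖ψ‖/(2 ∑ |ψ_x|))²`.  The same with the translated vector `ψ(· - v)` (`lap` commutes
with translations, so all its norms are the same).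
-/

open MeasureTheory Set Filter Topology Pool.Agent.Helper3.Anderson

noncomputable section

namespace Pool.Agent.ANE

open Pool.Agent.Helper3.Crit

/-- the plane wave -/
def w5wave {d : ℕ} (k : ℝ) (x : Site d) : ℂ :=
  Complex.exp (((k * ∑ j, (x j : ℝ) : ℝ) : ℂ) * Complex.I)

lemma w5wave_norm {d : ℕ} (k : ℝ) (x : Site d) : ‖w5wave k x‖ = 1 := by
  unfold w5wave
  exact Complex.norm_exp_ofReal_mul_I _

lemma w5_sum_add {d : ℕ} (x : Site d) (j : Fin d) :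
    ∑ i, (((x + Pi.single j 1 : Site d) i : ℤ) : ℝ) = ∑ i, (x i : ℝ) + 1 := by
  have h : ∀ i, (((x + Pi.single j 1 : Site d) i : ℤ) : ℝ) =
      (x i : ℝ) + (if i = j then (1 : ℝ) else 0) := by
    intro i
    rw [Pi.add_apply, Pi.single_apply]
    split_ifs <;> simp
  simp only [h]
  rw [Finset.sum_add_distrib, Finset.sum_ite_eq' Finset.univ j]
  simp

lemma w5_sum_sub {d : ℕ} (x : Site d) (j : Fin d) :
    ∑ i, (((x - Pi.single j 1 : Site d) i : ℤ) : ℝ) = ∑ i, (x i : ℝ) - 1 := by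
  have h := w5_sum_add (x - Pi.single j 1) j
  rw [sub_add_cancel] at h
  linarith

lemma w5wave_add {d : ℕ} (k : ℝ) (x : Site d) (j : Fin d) :
    w5wave k (x + Pi.single j 1) = Complex.exp (k * Complex.I) * w5wave k x := by
  unfold w5wave
  rw [w5_sum_add, ← Complex.exp_add]
  congr 1
  push_cast
  ring

lemma w5wave_sub {d : ℕ} (k : ℝ) (x : Site d) (j : Fin d) :
    w5wave k (x - Pi.single j 1) = Complex.exp (-k * Complex.I) * w5wave k x := by
  unfold w5wave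
  rw [w5_sum_sub, ← Complex.exp_add]
  congr 1
  push_cast
  ring

lemma w5wave_lap {d : ℕ} (k : ℝ) (x : Site d) :
    -lap (w5wave k) x = ((2 * d * (1 - Real.cos k) : ℝ) : ℂ) * w5wave k x := by
  unfold lap
  have h : ∀ j : Fin d, (w5wave k (x + Pi.single j 1) - w5wave k x) +
      (w5wave k (x - Pi.single j 1) - w5wave k x) =
      (2 * Complex.cos k - 2) * w5wave k x := by
    intro j
    rw [w5wave_add, w5wave_sub, Complex.two_cos]
    ring
  simp only [h]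
  rw [Finset.sum_const, Finset.card_univ, Fintype.card_fin, nsmul_eq_mul]
  push_cast
  ring

/-- the box `[a, b)^d` -/
def w5box (d : ℕ) (a b : ℤ) : Finset (Site d) := Fintype.piFinset fun _ => Finset.Ico a b

lemma w5_mem {d : ℕ} {a b : ℤ} {x : Site d} : x ∈ w5box d a b ↔ ∀ i, a ≤ x i ∧ x i < b := by
  unfold w5box
  rw [Fintype.mem_piFinset]
  simp only [Finset.mem_Ico]

lemma w5_single {d : ℕ} (j i : Fin d) :
    (Pi.single j 1 : Site d) i = 0 ∨ (Pi.single j 1 : Site d) i = 1 := by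
  rw [Pi.single_apply]
  split_ifs <;> simp

lemma w5_card {d : ℕ} (a b : ℤ) : (w5box d a b).card = (b - a).toNat ^ d := by
  unfold w5box
  rw [Fintype.card_piFinset]
  simp

lemma w5_mono {d : ℕ} {a b a' b' : ℤ} (h1 : a' ≤ a) (h2 : b ≤ b') :
    w5box d a b ⊆ w5box d a' b' := by
  intro x hx
  rw [w5_mem] at hx ⊢
  exact fun i => ⟨h1.trans (hx i).1, (hx i).2.trans_le h2⟩

lemma w5_add_mem {d : ℕ} {a b : ℤ} {x : Site d} (h : x ∈ w5box d a b) (j : Fin d) :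
    x + Pi.single j 1 ∈ w5box d (a - 1) (b + 1) := by
  rw [w5_mem] at h ⊢
  intro i
  have h1 := h i
  rw [Pi.add_apply]
  rcases w5_single j i with h2 | h2 <;> rw [h2] <;> omega

lemma w5_sub_mem {d : ℕ} {a b : ℤ} {x : Site d} (h : x ∈ w5box d a b) (j : Fin d) :
    x - Pi.single j 1 ∈ w5box d (a - 1) (b + 1) := by
  rw [w5_mem] at h ⊢
  intro i
  have h1 := h i
  rw [Pi.sub_apply]
  rcases w5_single j i with h2 | h2 <;> rw [h2] <;> omega

/-- the cut off plane wave -/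
def w5psi {d : ℕ} (k : ℝ) (N : ℕ) (x : Site d) : ℂ :=
  if x ∈ w5box d 0 N then w5wave k x else 0

lemma w5psi_in {d : ℕ} (k : ℝ) {N : ℕ} {x : Site d} (h : x ∈ w5box d 0 N) :
    w5psi k N x = w5wave k x := if_pos h

lemma w5psi_out {d : ℕ} (k : ℝ) {N : ℕ} {x : Site d} (h : x ∉ w5box d 0 N) :
    w5psi k N x = 0 := if_neg h

lemma w5psi_norm {d : ℕ} (k : ℝ) (N : ℕ) (x : Site d) : ‖w5psi k N x‖ ≤ 1 := by
  unfold w5psi
  split_ifs
  · rw [w5wave_norm]
  · simp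

lemma w5_out {d : ℕ} {N : ℕ} {x : Site d} (h : x ∉ w5box d (-1) (N + 1)) :
    x ∉ w5box d 0 N ∧ ∀ j, x + Pi.single j 1 ∉ w5box d 0 N ∧ x - Pi.single j 1 ∉ w5box d 0 N := by
  refine ⟨fun hx => h (w5_mono (by norm_num) (by omega) hx), fun j => ⟨fun hx => h ?_, fun hx => h ?_⟩⟩
  · have := w5_sub_mem hx j
    rwa [add_sub_cancel_right] at this
  · have := w5_add_mem hx j
    rwa [sub_add_cancel] at this

lemma w5_lap_out {d : ℕ} (k : ℝ) {N : ℕ} {x : Site d} (h : x ∉ w5box d (-1) (N + 1)) :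
    lap (w5psi k N) x = 0 := by
  obtain ⟨h1, h2⟩ := w5_out h
  unfold lap
  refine Finset.sum_eq_zero fun j _ => ?_
  rw [w5psi_out k (h2 j).1, w5psi_out k (h2 j).2, w5psi_out k h1]
  ring

lemma w5_lap_in {d : ℕ} (k : ℝ) {N : ℕ} {x : Site d} (h : x ∈ w5box d 1 ((N : ℤ) - 1)) :
    -lap (w5psi k N) x = ((2 * d * (1 - Real.cos k) : ℝ) : ℂ) * w5psi k N x := by
  have h1 : x ∈ w5box d 0 N := w5_mono (by norm_num) (by omega) h
  have h2 : ∀ j, x + Pi.single j 1 ∈ w5box d 0 N := fun j =>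
    w5_mono (by norm_num) (by omega) (w5_add_mem h j)
  have h3 : ∀ j, x - Pi.single j 1 ∈ w5box d 0 N := fun j =>
    w5_mono (by norm_num) (by omega) (w5_sub_mem h j)
  rw [w5psi_in k h1, ← w5wave_lap]
  unfold lap
  simp only [w5psi_in k h1, w5psi_in k (h2 _), w5psi_in k (h3 _)]

lemma w5_lap_norm {d : ℕ} (k : ℝ) (N : ℕ) (x : Site d) : ‖lap (w5psi k N) x‖ ≤ 4 * d := by
  unfold lap
  calc ‖∑ j : Fin d, ((w5psi k N (x + Pi.single j 1) - w5psi k N x) +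
        (w5psi k N (x - Pi.single j 1) - w5psi k N x))‖
      ≤ ∑ _j : Fin d, (4 : ℝ) := by
        refine norm_sum_le_of_le _ fun j _ => ?_
        have h1 := w5psi_norm k N (x + Pi.single j 1)
        have h2 := w5psi_norm k N (x - Pi.single j 1)
        have h3 := w5psi_norm k N x
        have h4 := norm_add_le (w5psi k N (x + Pi.single j 1) - w5psi k N x)
          (w5psi k N (x - Pi.single j 1) - w5psi k N x)
        have h5 := norm_sub_le (w5psi k N (x + Pi.single j 1)) (w5psi k N x)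
        have h6 := norm_sub_le (w5psi k N (x - Pi.single j 1)) (w5psi k N x)
        linarith
    _ = 4 * d := by
        rw [Finset.sum_const, Finset.card_univ, Fintype.card_fin, nsmul_eq_mul, mul_comm]

lemma w5_exists_N {d : ℕ} {δ : ℝ} (hδ : 0 < δ) :
    ∃ N : ℕ, 2 ≤ N ∧ ((N : ℝ) + 2) ^ d - ((N : ℝ) - 2) ^ d ≤ δ * (N : ℝ) ^ d := by
  have h0 : Tendsto (fun N : ℕ => 2 / (N : ℝ)) atTop (𝓝 0) :=
    tendsto_const_div_atTop_nhds_zero_nat 2
  have h1 : Tendsto (fun N : ℕ => (1 + 2 / (N : ℝ)) ^ d - (1 - 2 / (N : ℝ)) ^ d) atTop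
      (𝓝 ((1 + 0) ^ d - (1 - 0) ^ d)) :=
    ((h0.const_add 1).pow d).sub ((h0.const_sub 1).pow d)
  rw [add_zero, sub_zero, sub_self] at h1
  obtain ⟨N, hN, hN2⟩ := ((h1.eventually (gt_mem_nhds hδ)).and (eventually_ge_atTop 2)).exists
  refine ⟨N, hN2, ?_⟩
  have hpos : (0 : ℝ) < N := by
    have : (2 : ℝ) ≤ N := by exact_mod_cast hN2
    linarith
  have e1 : (1 + 2 / (N : ℝ)) ^ d * (N : ℝ) ^ d = ((N : ℝ) + 2) ^ d := by
    rw [← mul_pow]
    congr 1
    field_simp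
  have e2 : (1 - 2 / (N : ℝ)) ^ d * (N : ℝ) ^ d = ((N : ℝ) - 2) ^ d := by
    rw [← mul_pow]
    congr 1
    field_simp
  rw [← e1, ← e2, ← sub_mul]
  exact mul_le_mul_of_nonneg_right hN.le (by positivity)

lemma w5_sum_norm {d : ℕ} (k : ℝ) (N : ℕ) :
    ∑ x ∈ w5box d (-1) ((N : ℤ) + 1), ‖w5psi k N x‖ ^ 2 = (N : ℝ) ^ d := by
  have hsub : w5box d 0 N ⊆ w5box d (-1) ((N : ℤ) + 1) := w5_mono (by norm_num) (by omega)
  rw [← Finset.sum_subset hsub fun x _ hx => by rw [w5psi_out k hx]; simp]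
  rw [Finset.sum_congr rfl fun x hx => by rw [w5psi_in k hx, w5wave_norm]]
  rw [Finset.sum_const, w5_card, sub_zero, Int.toNat_natCast]
  simp

theorem exists_weyl {d : ℕ} (hd : 0 < d) {E0 : ℝ} (h0 : 0 ≤ E0) (h1 : E0 ≤ 4 * d) {ε : ℝ}
    (hε : 0 < ε) : ∃ (F : Finset (Site d)) (ψ : Site d → ℂ), (∀ x ∉ F, ψ x = 0) ∧
      (∀ x ∉ F, lap ψ x = 0) ∧ 0 < ∑ x ∈ F, ‖ψ x‖ ^ 2 ∧
      ∑ x ∈ F, ‖-lap ψ x - E0 * ψ x‖ ^ 2 ≤ ε ^ 2 * ∑ x ∈ F, ‖ψ x‖ ^ 2 := by
  have hd' : (0 : ℝ) < d := by exact_mod_cast hd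
  obtain ⟨N, hN2, hN⟩ := w5_exists_N (d := d) (δ := ε ^ 2 / (8 * d) ^ 2) (by positivity)
  set k : ℝ := Real.arccos (1 - E0 / (2 * d)) with hk
  have hcos : Real.cos k = 1 - E0 / (2 * d) := by
    rw [hk, Real.cos_arccos]
    · have : E0 / (2 * d) ≤ 2 := by
        rw [div_le_iff₀ (by positivity)]
        linarith
      linarith
    · have : 0 ≤ E0 / (2 * d) := by positivity
      linarith
  have hE : 2 * (d : ℝ) * (1 - Real.cos k) = E0 := by
    rw [hcos]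
    field_simp
    ring
  have hNpos : (0 : ℝ) < N := by
    have : (2 : ℝ) ≤ N := by exact_mod_cast hN2
    linarith
  refine ⟨w5box d (-1) ((N : ℤ) + 1), w5psi k N, ?_, ?_, ?_, ?_⟩
  · intro x hx
    exact w5psi_out k (w5_out hx).1
  · intro x hx
    exact w5_lap_out k hx
  · rw [w5_sum_norm]
    positivity
  · rw [w5_sum_norm]
    have hsub : w5box d 1 ((N : ℤ) - 1) ⊆ w5box d (-1) ((N : ℤ) + 1) :=
      w5_mono (by norm_num) (by omega)
    have hin : ∀ x ∈ w5box d 1 ((N : ℤ) - 1), ‖-lap (w5psi k N) x - E0 * w5psi k N x‖ ^ 2 = 0 := by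
      intro x hx
      rw [w5_lap_in k hx, hE, sub_self]
      simp
    have hbd : ∀ x : Site d, ‖-lap (w5psi k N) x - E0 * w5psi k N x‖ ^ 2 ≤ (8 * d) ^ 2 := by
      intro x
      have a1 := w5_lap_norm k N x
      have a2 := w5psi_norm k N x
      have a3 := norm_sub_le (-lap (w5psi k N) x) (E0 * w5psi k N x)
      rw [norm_neg, norm_mul, Complex.norm_real, Real.norm_eq_abs, abs_of_nonneg h0] at a3
      have a4 : E0 * ‖w5psi k N x‖ ≤ 4 * d * 1 :=
        mul_le_mul h1 a2 (norm_nonneg _) (by positivity)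
      exact pow_le_pow_left₀ (norm_nonneg _) (by linarith) 2
    rw [← Finset.sum_sdiff hsub, Finset.sum_eq_zero hin, add_zero]
    calc ∑ x ∈ w5box d (-1) ((N : ℤ) + 1) \ w5box d 1 ((N : ℤ) - 1),
          ‖-lap (w5psi k N) x - E0 * w5psi k N x‖ ^ 2
        ≤ ∑ _x ∈ w5box d (-1) ((N : ℤ) + 1) \ w5box d 1 ((N : ℤ) - 1), (8 * (d : ℝ)) ^ 2 :=
          Finset.sum_le_sum fun x _ => hbd x
      _ = (((N : ℝ) + 2) ^ d - ((N : ℝ) - 2) ^ d) * (8 * (d : ℝ)) ^ 2 := by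
          rw [Finset.sum_const, nsmul_eq_mul, Finset.cast_card_sdiff hsub, w5_card, w5_card]
          have e1 : ((N : ℤ) + 1 - -1).toNat = N + 2 := by omega
          have e2 : ((N : ℤ) - 1 - 1).toNat = N - 2 := by omega
          rw [e1, e2]
          push_cast [Nat.cast_sub hN2]
          ring
      _ ≤ (ε ^ 2 / (8 * d) ^ 2 * (N : ℝ) ^ d) * (8 * (d : ℝ)) ^ 2 :=
          mul_le_mul_of_nonneg_right hN (by positivity)
      _ = ε ^ 2 * (N : ℝ) ^ d := by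
          field_simp

lemma w5_norm_sq {d : ℕ} (u : L2 d) {S : Finset (Site d)} (h : ∀ y ∉ S, u y = 0) :
    ‖u‖ ^ 2 = ∑ y ∈ S, ‖u y‖ ^ 2 := by
  have h2 : 0 < (2 : ENNReal).toReal := by norm_num
  have h3 := lp.norm_rpow_eq_tsum h2 u
  have e : (2 : ENNReal).toReal = ((2 : ℕ) : ℝ) := by norm_num
  rw [e] at h3
  simp only [Real.rpow_natCast] at h3
  rw [h3]
  exact tsum_eq_sum fun y hy => by rw [h y hy]; simp

/-- the tent -/
def w5f (E0 r t : ℝ) : ℝ := max 0 (min 1 (2 - 2 * |t - E0| / r))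

lemma w5f_cont (E0 r : ℝ) : Continuous (w5f E0 r) := by
  unfold w5f
  fun_prop

lemma w5f_nonneg (E0 r t : ℝ) : 0 ≤ w5f E0 r t := le_max_left _ _

lemma w5f_le (E0 r t : ℝ) : w5f E0 r t ≤ 1 := max_le zero_le_one (min_le_left _ _)

lemma w5f_out {E0 r t : ℝ} (hr : 0 < r) (h : r ≤ |t - E0|) : w5f E0 r t = 0 := by
  unfold w5f
  apply max_eq_left
  refine (min_le_right _ _).trans ?_
  have : 2 ≤ 2 * |t - E0| / r := by
    rw [le_div_iff₀ hr]
    linarith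
  linarith

lemma w5f_sub {E0 r t : ℝ} (hr : 0 < r) : 1 - w5f E0 r t ≤ 2 * |t - E0| / r := by
  have h0 : 0 ≤ 2 * |t - E0| / r := by positivity
  unfold w5f
  have h1 : min 1 (2 - 2 * |t - E0| / r) ≤ max 0 (min 1 (2 - 2 * |t - E0| / r)) := le_max_right _ _
  rcases le_total 1 (2 - 2 * |t - E0| / r) with h2 | h2
  · rw [min_eq_left h2] at h1
    rw [min_eq_left h2]
    linarith
  · rw [min_eq_right h2] at h1
    rw [min_eq_right h2]
    linarith

theorem exists_charge {d : ℕ} (hd : 0 < d) {a b : ℝ} (hab : a < b) (ha : 0 ≤ a)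
    (hb : b ≤ 4 * d) : ∃ (F : Finset (Site d)) (κ c3 : ℝ), 0 < κ ∧ 0 < c3 ∧
      ∀ (V : Site d → ℝ) (hV : Bdd V), (∀ x, |V x| ≤ κ) → ∀ ν : Site d → Measure ℝ,
        (∀ x, PP.IsSpec (schr V hV) (lp.single 2 x (1 : ℂ) : L2 d) (ν x)) →
        ∀ v : Site d, ∃ x ∈ F, c3 ≤ (ν (x + v)).real (Icc a b) := by
  set E0 : ℝ := (a + b) / 2 with hE0
  set r : ℝ := (b - a) / 2 with hr
  have hrpos : 0 < r := by rw [hr]; linarith
  obtain ⟨F, ψ, hψ0, hlap0, hpos, hW⟩ := exists_weyl hd (E0 := E0) (by rw [hE0]; linarith)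
    (by rw [hE0]; linarith) (ε := r / 8) (by positivity)
  set n2 : ℝ := ∑ x ∈ F, ‖ψ x‖ ^ 2 with hn2
  set n1 : ℝ := ∑ x ∈ F, ‖ψ x‖ with hn1
  have hn1pos : 0 < n1 := by
    obtain ⟨x, hx, hx2⟩ := Finset.exists_lt_of_sum_lt (s := F) (f := fun _ => (0 : ℝ))
      (g := fun x => ‖ψ x‖ ^ 2) (by simpa using hpos)
    have hx3 : 0 < ‖ψ x‖ := by
      rcases (norm_nonneg (ψ x)).eq_or_lt with h | h
      · rw [← h] at hx2; simp at hx2
      · exact h
    exact hx3.trans_le (Finset.single_le_sum (f := fun x => ‖ψ x‖) (fun i _ => norm_nonneg _) hx)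
  refine ⟨F, r / 8, (Real.sqrt n2 / (2 * n1)) ^ 2, by positivity,
    pow_pos (div_pos (Real.sqrt_pos.2 hpos) (by positivity)) 2, ?_⟩
  intro V hV hVκ ν hν v
  have hH := isSelfAdjoint_schr V hV
  by_contra hcon
  push Not at hcon
  -- the translated test vector
  set Ψ : L2 d := ∑ x ∈ F, (ψ x) • (lp.single 2 (x + v) (1 : ℂ) : L2 d) with hΨ
  have hΨy : ∀ y, Ψ y = ψ (y - v) := by
    intro y
    rw [hΨ, coeFn_sum_apply]
    have e : ∀ x ∈ F, ((ψ x) • (lp.single 2 (x + v) (1 : ℂ) : L2 d) : L2 d) y =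
        if x = y - v then ψ x else 0 := by
      intro x _
      have e1 := dl_apply (x + v) y
      unfold dl at e1
      rw [lp.coeFn_smul, Pi.smul_apply, smul_eq_mul, e1]
      by_cases hxy : x = y - v
      · have : y = x + v := by rw [hxy]; abel
        rw [if_pos this, if_pos hxy, mul_one]
      · have : y ≠ x + v := fun h => hxy (by rw [h]; abel)
        rw [if_neg this, if_neg hxy, mul_zero]
    rw [Finset.sum_congr rfl e, Finset.sum_ite_eq' F (y - v)]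
    split_ifs with h
    · rfl
    · exact (hψ0 _ h).symm
  set S : Finset (Site d) := F.map (addRightEmbedding v) with hS
  have hmemS : ∀ y, y ∉ S → y - v ∉ F := by
    intro y hy h
    refine hy ?_
    rw [hS, Finset.mem_map]
    exact ⟨y - v, h, by simp⟩
  have hsumS : ∀ g : Site d → ℝ, ∑ y ∈ S, g (y - v) = ∑ x ∈ F, g x := by
    intro g
    rw [hS, Finset.sum_map]
    refine Finset.sum_congr rfl fun x _ => ?_
    simp
  have hlapΨ : ∀ y, lap (Ψ : Site d → ℂ) y = lap ψ (y - v) := by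
    intro y
    unfold lap
    refine Finset.sum_congr rfl fun j _ => ?_
    rw [hΨy, hΨy, hΨy, add_sub_right_comm, sub_right_comm]
  have hnormΨ : ‖Ψ‖ ^ 2 = n2 := by
    rw [w5_norm_sq Ψ (S := S) fun y hy => by rw [hΨy]; exact hψ0 _ (hmemS y hy)]
    simp only [hΨy]
    rw [hsumS fun x => ‖ψ x‖ ^ 2]
  have hres : ‖schr V hV Ψ - (E0 : ℂ) • Ψ‖ ^ 2 ≤ (r / 4) ^ 2 * n2 := by
    have hc : ∀ y, (schr V hV Ψ - (E0 : ℂ) • Ψ : L2 d) y =
        (-lap ψ (y - v) - E0 * ψ (y - v)) + V y * ψ (y - v) := by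
      intro y
      rw [lp.coeFn_sub, Pi.sub_apply, schr_apply, lp.coeFn_smul, Pi.smul_apply, smul_eq_mul,
        hlapΨ, hΨy]
      ring
    rw [w5_norm_sq _ (S := S) fun y hy => by
      rw [hc, hψ0 _ (hmemS y hy), hlap0 _ (hmemS y hy)]; simp]
    have hle : ∀ y ∈ S, ‖(schr V hV Ψ - (E0 : ℂ) • Ψ : L2 d) y‖ ^ 2 ≤
        2 * ‖-lap ψ (y - v) - E0 * ψ (y - v)‖ ^ 2 + 2 * (r / 8) ^ 2 * ‖ψ (y - v)‖ ^ 2 := by
      intro y _
      rw [hc]
      have a1 := norm_add_le (-lap ψ (y - v) - E0 * ψ (y - v)) (V y * ψ (y - v))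
      have a2 : ‖(V y : ℂ) * ψ (y - v)‖ ≤ r / 8 * ‖ψ (y - v)‖ := by
        rw [norm_mul, Complex.norm_real, Real.norm_eq_abs]
        exact mul_le_mul_of_nonneg_right (hVκ y) (norm_nonneg _)
      have a3 : ‖-lap ψ (y - v) - E0 * ψ (y - v) + V y * ψ (y - v)‖ ≤
          ‖-lap ψ (y - v) - E0 * ψ (y - v)‖ + r / 8 * ‖ψ (y - v)‖ := a1.trans (by linarith)
      have a4 := pow_le_pow_left₀ (norm_nonneg _) a3 2
      refine a4.trans ?_
      nlinarith [sq_nonneg (‖-lap ψ (y - v) - E0 * ψ (y - v)‖ - r / 8 * ‖ψ (y - v)‖)]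
    refine (Finset.sum_le_sum hle).trans ?_
    rw [Finset.sum_add_distrib, ← Finset.mul_sum, ← Finset.mul_sum,
      hsumS fun x => ‖-lap ψ x - E0 * ψ x‖ ^ 2, hsumS fun x => ‖ψ x‖ ^ 2]
    rw [← hn2]
    nlinarith
  obtain ⟨νΨ, hνΨ⟩ := exists_isSpec V hV Ψ
  -- the functional calculus
  set f : ℂ → ℂ := fun z => ((w5f E0 r z.re : ℝ) : ℂ) with hf
  have hfc : Continuous f := Complex.continuous_ofReal.comp ((w5f_cont E0 r).comp Complex.continuous_re)
  have hg : Continuous fun z => (1 : ℂ) - f z := continuous_const.sub hfc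
  have hstar := hH.isStarNormal
  have hsub : cfc (fun z => (1 : ℂ) - f z) (schr V hV) Ψ = Ψ - cfc f (schr V hV) Ψ := by
    rw [cfc_sub (fun _ => (1 : ℂ)) f (schr V hV) continuousOn_const hfc.continuousOn,
      cfc_const_one ℂ (schr V hV)]
    rfl
  have hclose : ‖Ψ - cfc f (schr V hV) Ψ‖ ^ 2 ≤ n2 / 4 := by
    rw [← hsub, hνΨ.norm_sq hH hg]
    have b1 : ∫ t : ℝ, ‖(1 : ℂ) - f t‖ ^ 2 ∂νΨ ≤ ∫ t : ℝ, (4 / r ^ 2) * (t - E0) ^ 2 ∂νΨ := by
      refine integral_mono (hνΨ.integrable (f := fun t : ℝ => ‖(1 : ℂ) - f t‖ ^ 2) ?_)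
        (hνΨ.integrable (f := fun t : ℝ => (4 / r ^ 2) * (t - E0) ^ 2) (by fun_prop)) fun t => ?_
      · have := hg.comp Complex.continuous_ofReal
        exact this.norm.pow 2
      · have c1 : ‖(1 : ℂ) - f t‖ = 1 - w5f E0 r t := by
          simp only [hf, Complex.ofReal_re]
          rw [← Complex.ofReal_one, ← Complex.ofReal_sub, Complex.norm_real, Real.norm_eq_abs,
            abs_of_nonneg (by linarith [w5f_le E0 r t])]
        change ‖(1 : ℂ) - f t‖ ^ 2 ≤ (4 / r ^ 2) * (t - E0) ^ 2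
        rw [c1]
        have c2 := w5f_sub (E0 := E0) (t := t) hrpos
        have c3 : (1 - w5f E0 r t) ^ 2 ≤ (2 * |t - E0| / r) ^ 2 :=
          pow_le_pow_left₀ (by linarith [w5f_le E0 r t]) c2 2
        refine c3.trans (le_of_eq ?_)
        rw [div_pow, mul_pow, sq_abs]
        ring
    refine b1.trans ?_
    rw [integral_const_mul, ← hνΨ.norm_sub_sq hH]
    calc 4 / r ^ 2 * ‖schr V hV Ψ - (E0 : ℂ) • Ψ‖ ^ 2 ≤ 4 / r ^ 2 * ((r / 4) ^ 2 * n2) :=
          mul_le_mul_of_nonneg_left hres (by positivity)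
      _ = n2 / 4 := by
          field_simp
  have hbig : Real.sqrt n2 / 2 ≤ ‖cfc f (schr V hV) Ψ‖ := by
    have c1 : ‖Ψ‖ = Real.sqrt n2 := by
      rw [← hnormΨ, Real.sqrt_sq (norm_nonneg _)]
    have c2 : ‖Ψ - cfc f (schr V hV) Ψ‖ ≤ Real.sqrt n2 / 2 := by
      refine le_of_sq_le_sq ?_ (by positivity)
      rw [div_pow, Real.sq_sqrt hpos.le]
      linarith
    have c3 := norm_sub_norm_le Ψ (Ψ - cfc f (schr V hV) Ψ)
    rw [sub_sub_cancel] at c3
    linarith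
  have hsum : cfc f (schr V hV) Ψ =
      ∑ x ∈ F, ψ x • cfc f (schr V hV) (lp.single 2 (x + v) (1 : ℂ) : L2 d) := by
    rw [hΨ, map_sum]
    exact Finset.sum_congr rfl fun x _ => by rw [map_smul]
  have hone : ∀ x ∈ F, ‖cfc f (schr V hV) (lp.single 2 (x + v) (1 : ℂ) : L2 d)‖ <
      Real.sqrt n2 / (2 * n1) := by
    intro x hx
    have c0 := (hν (x + v)).fin
    have c1 : ‖cfc f (schr V hV) (lp.single 2 (x + v) (1 : ℂ) : L2 d)‖ ^ 2 ≤
        (ν (x + v)).real (Icc a b) := by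
      rw [(hν (x + v)).norm_sq hH hfc, ← integral_indicator_one measurableSet_Icc]
      refine integral_mono ((hν (x + v)).integrable (f := fun t : ℝ => ‖f t‖ ^ 2) ?_)
        ((integrable_const (1 : ℝ)).indicator measurableSet_Icc) fun t => ?_
      · have := hfc.comp Complex.continuous_ofReal
        exact this.norm.pow 2
      · have e1 : ‖f t‖ = w5f E0 r t := by
          simp only [hf, Complex.ofReal_re]
          rw [Complex.norm_real, Real.norm_eq_abs, abs_of_nonneg (w5f_nonneg E0 r t)]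
        change ‖f t‖ ^ 2 ≤ indicator (Icc a b) (fun _ => (1 : ℝ)) t
        rw [e1]
        by_cases ht : t ∈ Icc a b
        · rw [indicator_of_mem ht]
          exact pow_le_one₀ (w5f_nonneg E0 r t) (w5f_le E0 r t)
        · rw [indicator_of_notMem ht, w5f_out hrpos ?_]
          · norm_num
          · rw [mem_Icc, not_and_or, not_le, not_le] at ht
            rcases ht with ht | ht
            · rw [le_abs]
              right
              rw [hE0, hr]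
              linarith
            · rw [le_abs]
              left
              rw [hE0, hr]
              linarith
    have c2 := hcon x hx
    have c3 : 0 ≤ Real.sqrt n2 / (2 * n1) := by positivity
    exact lt_of_pow_lt_pow_left₀ 2 c3 (c1.trans_lt c2)
  have hlt : ‖cfc f (schr V hV) Ψ‖ < Real.sqrt n2 / 2 := by
    rw [hsum]
    obtain ⟨x0, hx0, hx0pos⟩ : ∃ x ∈ F, 0 < ‖ψ x‖ := by
      by_contra hno
      push Not at hno
      have : n1 ≤ 0 := Finset.sum_nonpos fun x hx => hno x hx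
      linarith
    calc ‖∑ x ∈ F, ψ x • cfc f (schr V hV) (lp.single 2 (x + v) (1 : ℂ) : L2 d)‖
        ≤ ∑ x ∈ F, ‖ψ x‖ * ‖cfc f (schr V hV) (lp.single 2 (x + v) (1 : ℂ) : L2 d)‖ := by
          refine norm_sum_le_of_le _ fun x _ => ?_
          rw [norm_smul]
      _ < ∑ x ∈ F, ‖ψ x‖ * (Real.sqrt n2 / (2 * n1)) := by
          refine Finset.sum_lt_sum (fun x hx => ?_) ⟨x0, hx0, ?_⟩
          · exact mul_le_mul_of_nonneg_left (hone x hx).le (norm_nonneg _)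
          · exact mul_lt_mul_of_pos_left (hone x0 hx0) hx0pos
      _ = Real.sqrt n2 / 2 := by
          rw [← Finset.sum_mul, ← hn1]
          field_simp
  linarith

end Pool.Agent.ANE
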