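import Pool.Agent.ANE.W3

/-! # ANE W6: averaging (the hypothesis is only needed for almost every `E`).  `N = {(E, ω) : E ∈ [a,b], E ∈ NoWit (potc M lam ω) c}` is measurable (W3).  For
`E ∈ [a,b]`: `P(E ∈ NoWit) ≤ liminf_k P(¬ Wit at 1/(k+1)) ≤ δ` (`measure_liminf_atTop_le` or Fatou), so
`∫∫ 1_N(E, ω) dE dP ≤ (b-a) δ`.  Resampling of the coordinate `0` (`lintegral_resample 0`, see SpecAvg.lean):
`∫_μ(t) [∫∫ 1_N(E, update ω 0 t) dE dP] ≤ (b-a) δ`, so the set of `t` with `[..] ≤ (b-a) δ` has positive `μ`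
measure (`measure_le_lintegral_pos`), hence meets `[-M,M]` (`μ` is concentrated there): `t0`.  Then `spec_avg_fun`
with `x = 0`, `h = indicator N 1`, `b = ENNReal.ofReal (2 (b-a) δ)`.  -/

open MeasureTheory Set Filter Topology Pool.Agent.Helper3.Anderson
open scoped ENNReal NNReal

noncomputable section

namespace Pool.Agent.ANE

open Pool.Agent.Helper3.Crit

theorem exists_Hb {d : ℕ} {μ : Measure ℝ} [IsProbabilityMeasure μ] {M lam : ℝ} {K : ℝ≥0}
    (hμ : GoodLaw μ M K) (hlam : 0 < lam) {a b c δ : ℝ} (hab : a < b) (hδ : 0 < δ)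
    (h : ∀ᵐ E : ℝ, E ∈ Icc a b → ∀ k : ℕ,
      (PP d μ).real {ω | ¬ Wit (potc M lam ω) E c (1 / ((k : ℝ) + 1))} ≤ δ) :
    ∃ (t0 : ℝ) (Hb : (Site d → ℝ) → ℝ≥0∞), t0 ∈ Icc (-M) M ∧ Measurable Hb ∧
      ∫⁻ ω, Hb ω ∂(PP d μ) ≤ ENNReal.ofReal (K / lam * (2 * ((b - a) * δ))) ∧
      ∀ ω (ν : Measure ℝ), IsFiniteMeasure ν →
        (∀ z : ℂ, 0 < z.im → ∫ t : ℝ, z.im / ‖(t : ℂ) - z‖ ^ 2 ∂ν ≤ (gc M lam z ω 0 0).im) →
        ν {E | E ∈ Icc a b ∧ E ∈ NoWit (potc M lam (Function.update ω 0 t0)) c} ≤ Hb ω := by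
  classical
  have hM : 0 ≤ M := by linarith [hμ.one_le]
  obtain ⟨N, hN⟩ : ∃ N : Set (ℝ × (Site d → ℝ)),
      N = {q | q.1 ∈ Icc a b ∧ q.1 ∈ NoWit (potc M lam q.2) c} := ⟨_, rfl⟩
  have hNm : MeasurableSet N := by
    rw [hN]
    exact (measurable_fst measurableSet_Icc).inter (measurableSet_noWit c)
  -- probability of no witness at a fixed energy
  have hP : ∀ E : ℝ, (∀ k : ℕ,
      (PP d μ).real {ω | ¬ Wit (potc M lam ω) E c (1 / ((k : ℝ) + 1))} ≤ δ) →
      PP d μ {ω | E ∈ NoWit (potc M lam ω) c} ≤ ENNReal.ofReal δ := by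
    intro E hE
    have h1 : {ω : Site d → ℝ | E ∈ NoWit (potc M lam ω) c} =
        ⋃ n : ℕ, {ω : Site d → ℝ | ∀ k ≥ n, ¬ Wit (potc M lam ω) E c (1 / ((k : ℝ) + 1))} := by
      ext ω
      rw [mem_iUnion]
      exact eventually_atTop
    have hmono : Monotone fun n : ℕ =>
        {ω : Site d → ℝ | ∀ k ≥ n, ¬ Wit (potc M lam ω) E c (1 / ((k : ℝ) + 1))} := by
      intro m n hmn ω hω k hk
      exact hω k (hmn.trans hk)
    rw [h1, hmono.measure_iUnion]
    refine iSup_le fun n => ?_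
    have h3 : PP d μ {ω : Site d → ℝ | ∀ k ≥ n, ¬ Wit (potc M lam ω) E c (1 / ((k : ℝ) + 1))} ≤
        PP d μ {ω | ¬ Wit (potc M lam ω) E c (1 / ((n : ℝ) + 1))} :=
      measure_mono fun ω hω => hω n le_rfl
    refine h3.trans ?_
    have h2 := hE n
    rw [measureReal_def] at h2
    exact (ENNReal.le_ofReal_iff_toReal_le (measure_ne_top _ _) hδ.le).2 h2
  obtain ⟨g, hg⟩ : ∃ g : ℝ × (Site d → ℝ) → ℝ≥0∞, g = N.indicator 1 := ⟨_, rfl⟩
  have hgm : Measurable g := by
    rw [hg]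
    exact measurable_one.indicator hNm
  obtain ⟨f, hf⟩ : ∃ f : (Site d → ℝ) → ℝ≥0∞, f = fun ω => ∫⁻ E : ℝ, g (E, ω) := ⟨_, rfl⟩
  have hfm : Measurable f := by
    rw [hf]
    exact Measurable.lintegral_prod_left (f := fun E ω => g (E, ω)) hgm
  have hgE : ∀ᵐ E : ℝ, ∫⁻ ω, g (E, ω) ∂(PP d μ) ≤
      (Icc a b).indicator (fun _ => ENNReal.ofReal δ) E := by
    filter_upwards [h] with E hE'
    by_cases hE : E ∈ Icc a b
    · rw [indicator_of_mem hE]
      have h1 : (fun ω : Site d → ℝ => g (E, ω)) =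
          {ω : Site d → ℝ | E ∈ NoWit (potc M lam ω) c}.indicator 1 := by
        funext ω
        rw [hg, hN]
        by_cases h2 : E ∈ NoWit (potc M lam ω) c
        · rw [indicator_of_mem (show (E, ω) ∈ {q : ℝ × (Site d → ℝ) | q.1 ∈ Icc a b ∧
              q.1 ∈ NoWit (potc M lam q.2) c} from ⟨hE, h2⟩),
            indicator_of_mem (show ω ∈ {ω : Site d → ℝ | E ∈ NoWit (potc M lam ω) c} from h2)]
          rfl
        · rw [indicator_of_notMem (show (E, ω) ∉ {q : ℝ × (Site d → ℝ) | q.1 ∈ Icc a b ∧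
              q.1 ∈ NoWit (potc M lam q.2) c} from fun h3 => h2 h3.2),
            indicator_of_notMem (show ω ∉ {ω : Site d → ℝ | E ∈ NoWit (potc M lam ω) c} from h2)]
      have hms : MeasurableSet {ω : Site d → ℝ | E ∈ NoWit (potc M lam ω) c} := by
        have h2 : Measurable fun ω : Site d → ℝ => (E, ω) := measurable_const.prodMk measurable_id
        exact h2 (measurableSet_noWit (M := M) (lam := lam) c)
      rw [h1, lintegral_indicator_one hms]
      exact hP E (hE' hE)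
    · rw [indicator_of_notMem hE]
      refine le_of_eq ?_
      rw [← lintegral_zero (μ := PP d μ)]
      refine lintegral_congr fun ω => ?_
      rw [hg, hN, indicator_of_notMem (show (E, ω) ∉ {q : ℝ × (Site d → ℝ) | q.1 ∈ Icc a b ∧
        q.1 ∈ NoWit (potc M lam q.2) c} from fun h3 => hE h3.1)]
  have hfint : ∫⁻ ω, f ω ∂(PP d μ) ≤ ENNReal.ofReal ((b - a) * δ) := by
    have hsw : Measurable (Function.uncurry fun (ω : Site d → ℝ) (E : ℝ) => g (E, ω)) :=
      hgm.comp measurable_swap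
    rw [hf, lintegral_lintegral_swap hsw.aemeasurable]
    refine (lintegral_mono_ae hgE).trans ?_
    rw [lintegral_indicator measurableSet_Icc, setLIntegral_const, Real.volume_Icc,
      ← ENNReal.ofReal_mul hδ.le, mul_comm]
  -- resampling of the coordinate 0
  have hum : Measurable fun p : ℝ × (Site d → ℝ) => Function.update p.2 (0 : Site d) p.1 :=
    (measurable_update_prod (0 : Site d)).comp measurable_swap
  have hGm : Measurable fun t : ℝ => ∫⁻ ω, f (Function.update ω 0 t) ∂(PP d μ) :=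
    Measurable.lintegral_prod_right (f := fun (t : ℝ) (ω : Site d → ℝ) =>
      f (Function.update ω 0 t)) (hfm.comp hum)
  have hGint : ∫⁻ t, (∫⁻ ω, f (Function.update ω 0 t) ∂(PP d μ)) ∂μ = ∫⁻ ω, f ω ∂(PP d μ) := by
    rw [lintegral_resample (0 : Site d) hfm,
      lintegral_lintegral_swap (f := fun (t : ℝ) (ω : Site d → ℝ) =>
      f (Function.update ω 0 t)) (hfm.comp hum).aemeasurable]
  obtain ⟨t0, ht0, hG0⟩ := exists_notMem_null_le_lintegral hGm.aemeasurable hμ.supp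
  rw [notMem_compl_iff] at ht0
  rw [hGint] at hG0
  have hpos : 0 < (b - a) * δ := mul_pos (sub_pos.2 hab) hδ
  have hint : ∫⁻ ω, (∫⁻ E : ℝ, g (E, Function.update ω 0 t0)) ∂(PP d μ) <
      ENNReal.ofReal (2 * ((b - a) * δ)) := by
    have h1 : ∫⁻ ω, (∫⁻ E : ℝ, g (E, Function.update ω 0 t0)) ∂(PP d μ) =
        ∫⁻ ω, f (Function.update ω 0 t0) ∂(PP d μ) := by
      rw [hf]
    rw [h1]
    refine (hG0.trans hfint).trans_lt ?_
    rw [ENNReal.ofReal_lt_ofReal_iff (by positivity)]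
    linarith
  obtain ⟨Hb, hHm, hH1, hH2⟩ := spec_avg_fun hμ hlam (0 : Site d) t0 hgm hint
  refine ⟨t0, Hb, ht0, hHm, ?_, ?_⟩
  · refine hH1.trans_eq ?_
    rw [← ENNReal.ofReal_mul (by positivity)]
  · intro ω ν hν hz
    refine le_trans ?_ (hH2 ω ν hν hz)
    have h1 : ∀ E : ℝ, g (E, Function.update ω 0 t0) =
        {E | E ∈ Icc a b ∧ E ∈ NoWit (potc M lam (Function.update ω 0 t0)) c}.indicator 1 E := by
      intro E
      rw [hg, hN]
      by_cases h2 : E ∈ Icc a b ∧ E ∈ NoWit (potc M lam (Function.update ω 0 t0)) c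
      · rw [indicator_of_mem (show (E, Function.update ω 0 t0) ∈ {q : ℝ × (Site d → ℝ) |
            q.1 ∈ Icc a b ∧ q.1 ∈ NoWit (potc M lam q.2) c} from h2),
          indicator_of_mem (show E ∈ {E | E ∈ Icc a b ∧
            E ∈ NoWit (potc M lam (Function.update ω 0 t0)) c} from h2)]
        rfl
      · rw [indicator_of_notMem (show (E, Function.update ω 0 t0) ∉ {q : ℝ × (Site d → ℝ) |
            q.1 ∈ Icc a b ∧ q.1 ∈ NoWit (potc M lam q.2) c} from h2),
          indicator_of_notMem (show E ∉ {E | E ∈ Icc a b ∧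
            E ∈ NoWit (potc M lam (Function.update ω 0 t0)) c} from h2)]
    have hms : MeasurableSet {E | E ∈ Icc a b ∧
        E ∈ NoWit (potc M lam (Function.update ω 0 t0)) c} := by
      have h2 : Measurable fun E : ℝ => (E, Function.update ω 0 t0) :=
        measurable_id.prodMk measurable_const
      have h3 := h2 hNm
      rw [hN] at h3
      exact h3
    rw [lintegral_congr h1, lintegral_indicator_one hms]

end Pool.Agent.ANE
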