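import Pool.Agent.ANE.W1
import Pool.Agent.ANE.W4
import Pool.Agent.ANE.W5
import Pool.Agent.ANE.W6
import Pool.Agent.ANE.SoftC

/-! # ANE W7: assembly on `ℤ^d`.

`F, κ1, c3` from `exists_charge`; `κ` small: `κ M ≤ κ1` and `|F| K (2 (b-a) κ)/c3 ≤ 1/2`.  `t0, Hb` from `exists_Hb` with
`δ = κ lam`.  `B = {ω : ∀ x ∈ F, Hb (tr x ω) < c3}` (measurable): by Markov and `measurePreserving_tr`
`P Bᶜ ≤ |F| (K/lam) 2 (b-a) κ lam / c3 ≤ 1/2`.  `A = ⋃_v tr v ⁻¹' B` is measurable, `tr v ⁻¹' A = A`, `P A > 0`, so `P A = 1`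
(`zero_one`).  Let `ω ∈ A` with `ω x ∈ [-M,M]`, `ω x ≠ t0` for all `x` (almost sure: `μ` has a density), `tr v ω ∈ B`.
Let `V = potc M lam ω` and `ν y` a spectral measure of `δ_y` for `schr V` (`PP.exists_isSpec` or
`exists_specMeasure`).  By `exists_charge` there is `x ∈ F` with `ν (x + v) [a,b] ≥ c3`.  Put `ω' = tr (x + v) ω`
(`= tr x (tr v ω)`).  The measure `ν (x + v)` satisfies the Poisson condition of `exists_Hb` at `ω'`:
`gc M lam z ω' 0 0 = gc M lam z ω (x+v) (x+v)` (`gc_tr`) and `Im G_yy(z) = ∫ Im z/|t - z|² dν_y` (`poisson_of_isSpec`).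
So `ν (x+v) D ≤ Hb ω' < c3` with `D = {E ∈ [a,b] : E ∈ NoWit (potc M lam (update ω' 0 t0)) c}` (measurable by W3).
If `H φ = E φ`, `E ∈ [a,b]`, `φ (x+v) ≠ 0`, then `E ∈ D` by `mem_noWit_of_eigen` for the shifted function
`y ↦ φ (y + (x + v))`, the potential `potc M lam ω'` and `V' = potc M lam (update ω' 0 t0)` (they differ exactly at `0`:
`t0 ≠ ω' 0`, both in `[-M,M]`).  `contIn_of_diff` for the site `x + v` finishes.
-/

open MeasureTheory Set Filter Topology Pool.Agent.Helper3.Anderson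
open scoped ENNReal NNReal

noncomputable section

namespace Pool.Agent.ANE

open Pool.Agent.Helper3.Crit

private lemma w7_lap {d : ℕ} (φ : Site d → ℂ) (y z : Site d) :
    lap (fun z => φ (z + y)) z = lap φ (z + y) := by
  unfold lap
  refine Finset.sum_congr rfl fun j _ => ?_
  dsimp only
  rw [add_right_comm z (Pi.single j 1) y, show z - Pi.single j 1 + y = z + y - Pi.single j 1 by abel]

private lemma w7_tr {d : ℕ} (x v : Site d) (ω : Site d → ℝ) : tr x (tr v ω) = tr (x + v) ω := by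
  funext z
  unfold tr
  rw [add_assoc]

/-- the deterministic part -/
private lemma w7_det {d : ℕ} {M lam a b c c3 κ1 : ℝ} {F : Finset (Site d)} (hM : 0 ≤ M)
    (hlam : 0 < lam) (hc : 0 < c)
    (hF : ∀ (V : Site d → ℝ) (hV : Bdd V), (∀ x, |V x| ≤ κ1) → ∀ ν : Site d → Measure ℝ,
        (∀ x, PP.IsSpec (schr V hV) (lp.single 2 x (1 : ℂ) : L2 d) (ν x)) →
        ∀ v : Site d, ∃ x ∈ F, c3 ≤ (ν (x + v)).real (Icc a b))
    (hκ : lam * M ≤ κ1) {t0 : ℝ} (ht0 : t0 ∈ Icc (-M) M) {Hb : (Site d → ℝ) → ℝ≥0∞}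
    (hHb : ∀ ω (ν : Measure ℝ), IsFiniteMeasure ν →
        (∀ z : ℂ, 0 < z.im → ∫ t : ℝ, z.im / ‖(t : ℂ) - z‖ ^ 2 ∂ν ≤ (gc M lam z ω 0 0).im) →
        ν {E | E ∈ Icc a b ∧ E ∈ NoWit (potc M lam (Function.update ω 0 t0)) c} ≤ Hb ω)
    {ω : Site d → ℝ} (h1 : ∀ x, ω x ∈ Icc (-M) M) (h2 : ∀ x, ω x ≠ t0) {v : Site d}
    (hv : ∀ x ∈ F, Hb (tr x (tr v ω)) < ENNReal.ofReal c3) :
    ContIn (potc M lam ω) (bdd_potc hM ω) a b := by
  choose ν hν using fun y : Site d =>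
    exists_isSpec (potc M lam ω) (bdd_potc hM ω) (lp.single 2 y (1 : ℂ) : L2 d)
  obtain ⟨x, hxF, hx⟩ := hF (potc M lam ω) (bdd_potc hM ω) (fun x => by
    refine (abs_potc_le hM ω x).trans ?_
    rw [abs_of_pos hlam]
    exact hκ) ν hν v
  have h3 := hv x hxF
  rw [w7_tr] at h3
  obtain ⟨y, hy⟩ : ∃ y, y = x + v := ⟨_, rfl⟩
  rw [← hy] at hx h3
  have hfin := (hν y).fin
  have h4 := hHb (tr y ω) (ν y) hfin (fun z hz => by
    rw [gc_tr hM hz, zero_add]
    exact (poisson_of_isSpec _ _ y (hν y) hz).le)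
  obtain ⟨D, hD⟩ : ∃ D : Set ℝ, D = NoWit (potc M lam (Function.update (tr y ω) 0 t0)) c :=
    ⟨_, rfl⟩
  have hDm : MeasurableSet D := by
    have h5 : Measurable fun E : ℝ => (E, Function.update (tr y ω) (0 : Site d) t0) :=
      measurable_id.prodMk measurable_const
    have h6 := h5 (measurableSet_noWit (M := M) (lam := lam) c)
    rw [hD]
    exact h6
  have h5 : ν y (Icc a b ∩ D) < ENNReal.ofReal c3 := by
    refine lt_of_le_of_lt ?_ h3
    refine le_trans (le_of_eq ?_) h4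
    congr 1
    rw [hD]
    rfl
  have hne : ν y (Icc a b \ D) ≠ 0 := by
    intro h0
    have h6 : ν y (Icc a b) ≤ ν y (Icc a b ∩ D) + ν y (Icc a b \ D) :=
      measure_le_inter_add_sdiff _ _ _
    rw [h0, add_zero] at h6
    have h7 : ENNReal.ofReal c3 ≤ ν y (Icc a b) := by
      rw [measureReal_def] at hx
      exact ENNReal.ofReal_le_of_le_toReal hx
    exact absurd (h7.trans h6) (not_le.2 h5)
  refine contIn_of_diff _ _ y (hν y) hDm ?_ hne
  intro E _ φ hφ hφy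
  rw [hD]
  refine mem_noWit_of_eigen (V := potc M lam (tr y ω)) (φ := fun z => φ (z + y)) hc
    (memℓp_comp_add y (lp.memℓp φ)) ?_ ?_ ?_ ?_
  · intro z
    rw [w7_lap]
    have h6 := schr_apply (potc M lam ω) (bdd_potc hM ω) φ (z + y)
    rw [hφ] at h6
    exact h6.symm
  · change φ (0 + y) ≠ 0
    rw [zero_add]
    exact hφy
  · intro z hz
    unfold potc
    rw [Function.update_of_ne hz]
  · unfold potc
    rw [Function.update_self, clip_of_abs_le (abs_le.2 ht0)]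
    have h6 : tr y ω 0 = ω y := by
      unfold tr
      rw [zero_add]
    rw [h6, clip_of_abs_le (abs_le.2 (h1 y))]
    intro h7
    exact h2 y (mul_left_cancel₀ hlam.ne' h7).symm

theorem ae_contIn_of_wit {d : ℕ} (hd : 0 < d) {μ : Measure ℝ} [IsProbabilityMeasure μ] {M : ℝ}
    {K : ℝ≥0} (hμ : GoodLaw μ M K) (hM : 0 ≤ M) {a b : ℝ} (hab : a < b) (ha : 0 ≤ a)
    (hb : b ≤ 4 * d) :
    ∃ κ : ℝ, 0 < κ ∧ ∀ lam : ℝ, 0 < lam → lam ≤ κ → ∀ c : ℝ, 0 < c →
      (∀ᵐ E : ℝ, E ∈ Icc a b → ∀ k : ℕ,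
        (PP d μ).real {ω | ¬ Wit (potc M lam ω) E c (1 / ((k : ℝ) + 1))} ≤ κ * lam) →
      ∀ᵐ ω ∂(PP d μ), ContIn (potc M lam ω) (bdd_potc hM ω) a b := by
  classical
  obtain ⟨F, κ1, c3, hκ1, hc3, hF⟩ := exists_charge hd hab ha hb
  have hba : 0 < b - a := sub_pos.2 hab
  have hK : (0 : ℝ) ≤ K := NNReal.coe_nonneg K
  obtain ⟨n, hn⟩ : ∃ n : ℝ, n = F.card := ⟨_, rfl⟩
  have hn0 : 0 ≤ n := by rw [hn]; exact Nat.cast_nonneg _
  obtain ⟨κ, hκ⟩ : ∃ κ : ℝ, κ = min (κ1 / (M + 1)) (c3 / (4 * (n + 1) * (K + 1) * (b - a))) :=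
    ⟨_, rfl⟩
  have hκ0 : 0 < κ := by
    rw [hκ]
    exact lt_min (by positivity) (by positivity)
  have hκM : κ * M ≤ κ1 := by
    have h1 : κ ≤ κ1 / (M + 1) := by rw [hκ]; exact min_le_left _ _
    have h2 : κ * (M + 1) ≤ κ1 := by
      rwa [le_div_iff₀ (by positivity)] at h1
    have h3 : κ * M ≤ κ * (M + 1) := mul_le_mul_of_nonneg_left (by linarith) hκ0.le
    linarith
  have hκc : n * (K * (2 * ((b - a) * κ))) ≤ c3 / 2 := by
    have h1 : κ ≤ c3 / (4 * (n + 1) * (K + 1) * (b - a)) := by rw [hκ]; exact min_le_right _ _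
    have h2 : κ * (4 * (n + 1) * (K + 1) * (b - a)) ≤ c3 := by
      rwa [le_div_iff₀ (by positivity)] at h1
    have h3 : n * K ≤ (n + 1) * (K + 1) :=
      mul_le_mul (by linarith) (by linarith) hK (by linarith)
    have h4 : n * (K * (2 * ((b - a) * κ))) = (n * K) * (2 * ((b - a) * κ)) := by ring
    have h5 : (n * K) * (2 * ((b - a) * κ)) ≤ ((n + 1) * (K + 1)) * (2 * ((b - a) * κ)) :=
      mul_le_mul_of_nonneg_right h3 (by positivity)
    have h6 : ((n + 1) * (K + 1)) * (2 * ((b - a) * κ)) =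
        κ * (4 * (n + 1) * (K + 1) * (b - a)) / 2 := by ring
    rw [h4]
    linarith
  refine ⟨κ, hκ0, ?_⟩
  intro lam hlam hlamκ c hc h
  obtain ⟨t0, Hb, ht0, hHm, hH1, hH2⟩ := exists_Hb (d := d) hμ hlam hab (mul_pos hκ0 hlam) h
  have hH1' : ∫⁻ ω, Hb ω ∂(PP d μ) ≤ ENNReal.ofReal (K * (2 * ((b - a) * κ))) := by
    refine hH1.trans_eq ?_
    congr 1
    field_simp
  -- the good event
  obtain ⟨B, hB⟩ : ∃ B : Set (Site d → ℝ),
      B = {ω | ∀ x ∈ F, Hb (tr x ω) < ENNReal.ofReal c3} := ⟨_, rfl⟩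
  have htrm : ∀ v : Site d, Measurable (tr v : (Site d → ℝ) → (Site d → ℝ)) := fun v =>
    (measurePreserving_tr (μ := μ) v).measurable
  have hBm : MeasurableSet B := by
    have h1 : B = ⋂ x ∈ F, {ω | Hb (tr x ω) < ENNReal.ofReal c3} := by
      rw [hB]
      ext ω
      simp only [mem_iInter]
      rfl
    rw [h1]
    refine Finset.measurableSet_biInter _ fun x _ => ?_
    exact measurableSet_lt (hHm.comp (htrm x)) measurable_const
  have hPB : PP d μ B ≠ 0 := by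
    intro h0
    have h1 : PP d μ Bᶜ = 1 := by
      rw [prob_compl_eq_one_iff hBm]
      exact h0
    have h2 : Bᶜ ⊆ ⋃ x ∈ F, {ω | ENNReal.ofReal c3 ≤ Hb (tr x ω)} := by
      intro ω hω
      rw [hB, mem_compl_iff] at hω
      have h3 : ∃ x ∈ F, ENNReal.ofReal c3 ≤ Hb (tr x ω) := by
        by_contra h4
        push Not at h4
        exact hω h4
      obtain ⟨x, hx, h3⟩ := h3
      exact mem_biUnion hx h3
    have hc3' : ENNReal.ofReal c3 ≠ 0 := (ENNReal.ofReal_pos.2 hc3).ne'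
    have h3 : ∀ x ∈ F, PP d μ {ω | ENNReal.ofReal c3 ≤ Hb (tr x ω)} ≤
        ENNReal.ofReal (K * (2 * ((b - a) * κ))) / ENNReal.ofReal c3 := by
      intro x _
      have h4 : ∫⁻ ω, Hb (tr x ω) ∂(PP d μ) = ∫⁻ ω, Hb ω ∂(PP d μ) :=
        (measurePreserving_tr (μ := μ) x).lintegral_comp hHm
      refine (meas_ge_le_lintegral_div (hHm.comp (htrm x)).aemeasurable hc3'
        ENNReal.ofReal_ne_top).trans ?_
      refine ENNReal.div_le_div_right ?_ _
      exact h4.trans_le hH1'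
    have h4 : PP d μ Bᶜ ≤ (F.card : ℝ≥0∞) *
        (ENNReal.ofReal (K * (2 * ((b - a) * κ))) / ENNReal.ofReal c3) := by
      refine (measure_mono h2).trans ((measure_biUnion_finset_le _ _).trans ?_)
      refine (Finset.sum_le_sum h3).trans ?_
      rw [Finset.sum_const, nsmul_eq_mul]
    rw [h1, ← ENNReal.ofReal_div_of_pos hc3, ← ENNReal.ofReal_natCast,
      ← ENNReal.ofReal_mul (Nat.cast_nonneg _), ← hn, ← ENNReal.ofReal_one,
      ENNReal.ofReal_le_ofReal_iff (by positivity), ← mul_div_assoc, le_div_iff₀ hc3] at h4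
    linarith
  -- the shift invariant event
  obtain ⟨A, hA⟩ : ∃ A : Set (Site d → ℝ), A = ⋃ v : Site d, tr v ⁻¹' B := ⟨_, rfl⟩
  have hAm : MeasurableSet A := by
    rw [hA]
    exact MeasurableSet.iUnion fun v => (htrm v) hBm
  have hAinv : ∀ v : Site d, tr v ⁻¹' A = A := by
    intro v
    ext ω
    rw [mem_preimage, hA, mem_iUnion, mem_iUnion]
    constructor
    · rintro ⟨w, hw⟩
      refine ⟨w + v, ?_⟩
      rw [mem_preimage, w7_tr] at hw
      exact hw
    · rintro ⟨w, hw⟩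
      refine ⟨w - v, ?_⟩
      rw [mem_preimage, w7_tr, sub_add_cancel]
      exact hw
  have hPA : PP d μ A = 1 := by
    rcases zero_one (μ := μ) hd hAm hAinv with h0 | h1
    · exfalso
      apply hPB
      refine measure_mono_null ?_ h0
      intro ω hω
      rw [hA]
      refine mem_iUnion.2 ⟨0, ?_⟩
      have h2 : tr (0 : Site d) ω = ω := by
        funext z
        unfold tr
        rw [add_zero]
      rw [mem_preimage, h2]
      exact hω
    · exact h1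
  have hAae : ∀ᵐ ω ∂(PP d μ), ω ∈ A := by
    rw [ae_iff]
    exact (prob_compl_eq_zero_iff hAm).2 hPA
  have hco : ∀ {s : Set ℝ}, μ s = 0 → ∀ᵐ ω ∂(PP d μ), ∀ x : Site d, ω x ∉ s := by
    intro s hs
    rw [ae_all_iff]
    intro x
    have h1 : MeasurePreserving (fun ω : Site d → ℝ => ω x) (PP d μ) μ :=
      measurePreserving_eval_infinitePi (fun _ : Site d => μ) x
    have h2 : ∀ᵐ t ∂μ, t ∉ s := by
      rw [ae_iff]
      simpa using hs
    exact h1.quasiMeasurePreserving.ae h2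
  have hsupp := hco hμ.supp
  have hpt : μ {t0} = 0 := by
    have h1 := hμ.dens {t0}
    rw [Measure.smul_apply, Real.volume_singleton, smul_zero] at h1
    exact le_antisymm h1 zero_le
  have hne := hco hpt
  filter_upwards [hAae, hsupp, hne] with ω hωA hω1 hω2
  rw [hA, mem_iUnion] at hωA
  obtain ⟨v, hv⟩ := hωA
  rw [mem_preimage, hB] at hv
  refine w7_det hM hlam hc hF ?_ ht0 hH2 (fun x => ?_) (fun x => ?_) hv
  · exact (mul_le_mul_of_nonneg_right hlamκ hM).trans hκM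
  · exact notMem_compl_iff.1 (hω1 x)
  · intro h3
    exact hω2 x h3

end Pool.Agent.ANE
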