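import Pool.Agent.ANE.W3
import Pool.Agent.Kin.Law

/-! # ANE W8: from the torus to `ℤ^d`.

Let `ω` be a field on `ℤ^d`, `V_T w = lam * ω (rep w)` on the torus.  If `WitT L V_T E c η` holds with `(u, W)`, then
`F = image rep univ`-window `{y | ∀ j, 2 |y_j| + 2 ≤ L}`, `u'(y) = u(y mod L)` if `∀ j, 2|y_j| + 4 ≤ L`, `0` otherwise,
`W'(y) = W(y mod L)`, gives a witness on `ℤ^d` for `lam * ω`: for `y` in the window `2|y_j| + 2 ≤ L` the residual at `y` is
the residual of `u` at `y mod L` (the neighbours of `y` are represented by `y ± e_j`, also when `2 |y_j| + 2 = L`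
or so because `u` vanishes there), and off the window it is `0`.  `rep_injective`: the sum over `F` is at most
the sum over the torus.  (`ZMod.valMinAbs`, see Kin/Cut.lean.)
Law: under `PP d μ` the field `w ↦ ω (rep w)` on the torus has law `Measure.pi fun _ => μ` (`law_torus` in
Kin/Law.lean), the set `{h | WitT L (lam h) E c η}` is open (`isOpen_witT`), and `potc M lam ω = lam ω` almost surely. -/

open MeasureTheory Set Filter Topology Pool.Agent.Helper3.Anderson

noncomputable section

namespace Pool.Agent.ANE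

open Pool.Agent.Kin

/-- projection to the torus -/
private def prj {d : ℕ} (L : ℕ) (y : Site d) : Tor d L := fun j => ((y j : ℤ) : ZMod L)

private lemma prj_add {d L : ℕ} (y z : Site d) : prj L (y + z) = prj L y + prj L z := by
  funext j
  simp [prj]

private lemma prj_sub {d L : ℕ} (y z : Site d) : prj L (y - z) = prj L y - prj L z := by
  funext j
  simp [prj]

private lemma prj_rep {d L : ℕ} (w : Tor d L) : prj L (rep w) = w := by
  funext j
  simp [prj, rep]

private lemma prj_single {d L : ℕ} (j : Fin d) :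
    prj L (Pi.single j 1 : Site d) = (Pi.single j 1 : Tor d L) := by
  funext i
  unfold prj
  by_cases h : i = j
  · subst h; simp
  · simp [Pi.single_eq_of_ne h]

private lemma rep_prj {d L : ℕ} [NeZero L] (y : Site d) (h : ∀ j, 2 * |y j| + 1 ≤ (L : ℤ)) :
    rep (prj L y) = y := by
  funext j
  unfold rep prj
  rw [ZMod.valMinAbs_spec]
  refine ⟨rfl, ?_⟩
  have h1 := h j
  have h2 := neg_abs_le (y j)
  have h3 := le_abs_self (y j)
  constructor <;> omega

/-- transplantation of a function of the torus -/
private def tr {d L : ℕ} (u : Tor d L → ℂ) (y : Site d) : ℂ :=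
  if rep (prj L y) = y then u (prj L y) else 0

private lemma tr_rep {d L : ℕ} (u : Tor d L → ℂ) (w : Tor d L) : tr u (rep w) = u w := by
  unfold tr
  rw [prj_rep, if_pos rfl]

private lemma abs_shift_le {d : ℕ} (r : Site d) (j i : Fin d) :
    |(r + Pi.single j 1 : Site d) i| ≤ |r i| + 1 ∧ |(r - Pi.single j 1 : Site d) i| ≤ |r i| + 1 := by
  have h0 : |(Pi.single j 1 : Site d) i| ≤ 1 := by
    by_cases h : i = j
    · subst h; simp
    · simp [Pi.single_eq_of_ne h]
  constructor
  · rw [Pi.add_apply]
    exact (abs_add_le _ _).trans (by linarith)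
  · rw [Pi.sub_apply]
    exact (abs_sub _ _).trans (by linarith)

private lemma tr_add {d L : ℕ} [NeZero L] (u : Tor d L → ℂ)
    (hu : ∀ x, u x ≠ 0 → ∀ j, 2 * |rep x j| + 4 ≤ (L : ℤ)) (w : Tor d L) (j : Fin d) :
    tr u (rep w + Pi.single j 1) = u (w + Pi.single j 1) := by
  have hp : prj L (rep w + Pi.single j 1) = w + Pi.single j 1 := by
    rw [prj_add, prj_rep, prj_single]
  by_cases h0 : u (w + Pi.single j 1) = 0
  · unfold tr
    rw [hp, h0]
    simp
  · have h1 := hu _ h0
    have h2 : rep w = rep (w + Pi.single j 1) - Pi.single j 1 := by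
      have h3 : prj L (rep (w + Pi.single j 1) - Pi.single j 1 : Site d) = w := by
        rw [prj_sub, prj_rep, prj_single, add_sub_cancel_right]
      have h4 := rep_prj (L := L) (rep (w + Pi.single j 1) - Pi.single j 1 : Site d) (by
        intro i
        have h5 := h1 i
        have h6 := (abs_shift_le (rep (w + Pi.single j 1)) j i).2
        linarith)
      rw [h3] at h4
      exact h4
    unfold tr
    rw [hp, if_pos]
    rw [h2, sub_add_cancel]

private lemma tr_sub {d L : ℕ} [NeZero L] (u : Tor d L → ℂ)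
    (hu : ∀ x, u x ≠ 0 → ∀ j, 2 * |rep x j| + 4 ≤ (L : ℤ)) (w : Tor d L) (j : Fin d) :
    tr u (rep w - Pi.single j 1) = u (w - Pi.single j 1) := by
  have hp : prj L (rep w - Pi.single j 1) = w - Pi.single j 1 := by
    rw [prj_sub, prj_rep, prj_single]
  by_cases h0 : u (w - Pi.single j 1) = 0
  · unfold tr
    rw [hp, h0]
    simp
  · have h1 := hu _ h0
    have h2 : rep w = rep (w - Pi.single j 1) + Pi.single j 1 := by
      have h3 : prj L (rep (w - Pi.single j 1) + Pi.single j 1 : Site d) = w := by
        rw [prj_add, prj_rep, prj_single, sub_add_cancel]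
      have h4 := rep_prj (L := L) (rep (w - Pi.single j 1) + Pi.single j 1 : Site d) (by
        intro i
        have h5 := h1 i
        have h6 := (abs_shift_le (rep (w - Pi.single j 1)) j i).1
        linarith)
      rw [h3] at h4
      exact h4
    unfold tr
    rw [hp, if_pos]
    rw [h2, add_sub_cancel_right]

/-- outside the set of representatives the transplanted function vanishes, with its neighbours -/
private lemma tr_out {d L : ℕ} [NeZero L] (u : Tor d L → ℂ)
    (hu : ∀ x, u x ≠ 0 → ∀ j, 2 * |rep x j| + 4 ≤ (L : ℤ)) (y z : Site d)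
    (hy : ∀ w : Tor d L, rep w ≠ y) (hyz : ∀ i, |y i| ≤ |z i| + 1) : tr u z = 0 := by
  by_contra h
  unfold tr at h
  by_cases hz : rep (prj L z) = z
  · rw [if_pos hz] at h
    have h1 := hu _ h
    rw [hz] at h1
    refine hy (prj L y) (rep_prj y fun i => ?_)
    have h2 := h1 i
    have h3 := hyz i
    linarith
  · rw [if_neg hz] at h
    exact h rfl

private lemma H0T_mulVec {d L : ℕ} [NeZero L] (u : Tor d L → ℂ) (w : Tor d L) :
    (H0T d L).mulVec u w = -∑ j : Fin d, ((u (w + Pi.single j 1) - u w) +
      (u (w - Pi.single j 1) - u w)) := by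
  unfold H0T Matrix.mulVec dotProduct
  have h1 : ∀ y : Tor d L, ((if w = y then 2 * (d : ℂ) else 0) -
      ∑ j : Fin d, ((if y = w + Pi.single j 1 then (1 : ℂ) else 0) +
        (if y = w - Pi.single j 1 then 1 else 0))) * u y =
      (if w = y then 2 * (d : ℂ) * u y else 0) -
      ∑ j : Fin d, ((if y = w + Pi.single j 1 then u y else 0) +
        (if y = w - Pi.single j 1 then u y else 0)) := by
    intro y
    rw [sub_mul, Finset.sum_mul]
    congr 1
    · split_ifs <;> simp
    · refine Finset.sum_congr rfl fun j _ => ?_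
      rw [add_mul]
      congr 1 <;> split_ifs <;> simp
  simp only [h1]
  rw [Finset.sum_sub_distrib, Finset.sum_comm]
  simp only [Finset.sum_add_distrib, Finset.sum_ite_eq, Finset.sum_ite_eq', Finset.mem_univ,
    if_true, Finset.sum_sub_distrib, Finset.sum_const, Finset.card_univ, Fintype.card_fin,
    nsmul_eq_mul]
  ring

theorem wit_of_witT {d L : ℕ} [NeZero L] (V : Site d → ℝ) {E c η : ℝ} (hc : 0 ≤ c)
    (h : WitT L (fun w : Tor d L => V (rep w)) E c η) : Wit V E c η := by
  classical
  obtain ⟨u, W, hW, hu, hs, h0⟩ := h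
  have hrep0 : rep (0 : Tor d L) = (0 : Site d) := by
    funext j
    simp [rep]
  have hin : ∀ w : Tor d L, rsd V E (fun y => W (prj L y)) (tr u) (rep w) =
      rsdT (fun w : Tor d L => V (rep w)) E W u w := by
    intro w
    unfold rsd rsdT
    have h1 : -lap (tr u) (rep w) = (H0T d L).mulVec u w := by
      rw [H0T_mulVec]
      unfold lap
      congr 1
      refine Finset.sum_congr rfl fun j _ => ?_
      rw [tr_add u hu, tr_sub u hu, tr_rep]
    have h2 : (if rep w = (0 : Site d) then (1 : ℂ) else 0) = if w = 0 then 1 else 0 := by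
      by_cases hw : w = 0
      · rw [hw, hrep0, if_pos rfl, if_pos rfl]
      · rw [if_neg hw, if_neg]
        intro h3
        exact hw (rep_injective d L (h3.trans hrep0.symm))
    rw [h1, h2, tr_rep]
    simp only [prj_rep]
  refine ⟨Finset.univ.image (rep : Tor d L → Site d), tr u, fun y => W (prj L y), ?_, ?_,
    fun y => hW _, ?_, ?_⟩
  · intro y hy
    have hy' : ∀ w : Tor d L, rep w ≠ y := fun w hw =>
      hy (Finset.mem_image.mpr ⟨w, Finset.mem_univ w, hw⟩)
    exact tr_out u hu y y hy' fun i => by linarith [abs_nonneg (y i)]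
  · intro y hy
    have hy' : ∀ w : Tor d L, rep w ≠ y := fun w hw =>
      hy (Finset.mem_image.mpr ⟨w, Finset.mem_univ w, hw⟩)
    have h1 : tr u y = 0 := tr_out u hu y y hy' fun i => by linarith [abs_nonneg (y i)]
    have h2 : ∀ j, tr u (y + Pi.single j 1) = 0 := fun j =>
      tr_out u hu y _ hy' fun i => by
        have := (abs_shift_le (y + Pi.single j 1) j i).2
        rwa [add_sub_cancel_right] at this
    have h3 : ∀ j, tr u (y - Pi.single j 1) = 0 := fun j =>
      tr_out u hu y _ hy' fun i => by
        have := (abs_shift_le (y - Pi.single j 1) j i).1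
        rwa [sub_add_cancel] at this
    have h4 : y ≠ 0 := fun h5 => hy' 0 (by rw [hrep0, h5])
    unfold rsd lap
    rw [h1, if_neg h4]
    simp only [h2, h3]
    simp
  · rw [Finset.sum_image fun a _ b _ hab => rep_injective d L hab]
    simp only [hin, tr_rep]
    exact hs
  · have h1 : tr u 0 = u 0 := by
      rw [← hrep0, tr_rep]
    rw [h1]
    exact h0

private lemma law_PP {d : ℕ} {μ : Measure ℝ} [IsProbabilityMeasure μ] (L : ℕ) [NeZero L] :
    (PP d μ).map (fun ω : Site d → ℝ => fun w : Tor d L => ω (rep w)) =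
      Measure.pi fun _ : Tor d L => μ := by
  have hev : ∀ x : Site d, (PP d μ).map (fun s : Site d → ℝ => s x) = μ := fun x =>
    (measurePreserving_eval_infinitePi (fun _ : Site d => μ) x).map_eq
  have hi : ProbabilityTheory.iIndepFun (fun (x : Site d) (s : Site d → ℝ) => s x) (PP d μ) := by
    rw [ProbabilityTheory.iIndepFun_iff_map_fun_eq_infinitePi_map (fun x => measurable_pi_apply x)]
    simp only [hev]
    exact Measure.map_id
  have hid : ∀ x : Site d, ProbabilityTheory.IdentDistrib (fun s : Site d → ℝ => s x)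
      (fun s : Site d → ℝ => s 0) (PP d μ) (PP d μ) := fun x =>
    ⟨(measurable_pi_apply x).aemeasurable, (measurable_pi_apply 0).aemeasurable,
      by rw [hev, hev]⟩
  have h := (law_torus (PP d μ) (fun (x : Fin d → ℤ) (s : Site d → ℝ) => s x) hi hid L 0 0).2
  simp only [zero_add, sub_zero] at h
  rw [h]
  congr 1
  funext _
  exact hev 0

theorem prob_wit_of_torus {d : ℕ} {μ : Measure ℝ} [IsProbabilityMeasure μ] {M lam : ℝ}
    (hM : 0 ≤ M) (hμ : μ (Icc (-M) M)ᶜ = 0) {E c η δ : ℝ} (hc : 0 ≤ c) {L : ℕ} [NeZero L]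
    (h : 1 - δ ≤ (Measure.pi fun _ : Tor d L => μ).real
      {h | WitT L (fun w => lam * h w) E c η}) :
    (PP d μ).real {ω | ¬ Wit (potc M lam ω) E c η} ≤ δ := by
  set S : Set (Tor d L → ℝ) := {h | WitT L (fun w => lam * h w) E c η} with hS
  have hSm : MeasurableSet S := by
    have h1 : IsOpen {V : Tor d L → ℝ | WitT L V E c η} := isOpen_witT E c η
    have h2 : Continuous fun h : Tor d L → ℝ => fun w => lam * h w := by fun_prop
    exact (h1.preimage h2).measurableSet
  let T : (Site d → ℝ) → (Tor d L → ℝ) := fun ω w => ω (rep w)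
  have hTm : Measurable T := measurable_pi_lambda _ fun w => measurable_pi_apply _
  have h1 : 1 - δ ≤ (PP d μ).real (T ⁻¹' S) := by
    rw [← law_PP (d := d) (μ := μ) L, map_measureReal_apply hTm hSm] at h
    exact h
  have h2 : (PP d μ).real (T ⁻¹' S)ᶜ ≤ δ := by
    rw [measureReal_compl (hTm hSm), probReal_univ]
    linarith
  have hnull : ∀ᵐ ω ∂(PP d μ), ∀ x : Site d, ω x ∈ Icc (-M) M := by
    rw [ae_all_iff]
    intro x
    have h3 : ∀ᵐ t ∂μ, t ∈ Icc (-M) M := by
      rw [ae_iff]
      exact hμ
    exact (measurePreserving_eval_infinitePi (fun _ : Site d => μ) x).quasiMeasurePreserving.ae h3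
  refine le_trans ?_ h2
  refine ENNReal.toReal_mono (measure_ne_top _ _) (measure_mono_ae ?_)
  filter_upwards [hnull] with ω hω hbad hgood
  refine hbad ?_
  refine wit_of_witT (L := L) (potc M lam ω) hc ?_
  have h4 : (fun w : Tor d L => potc M lam ω (rep w)) = fun w => lam * T ω w := by
    funext w
    unfold potc
    rw [clip_of_abs_le (abs_le.mpr (hω (rep w)))]
  rw [h4]
  exact hgood

end Pool.Agent.ANE
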