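import Pool.Agent.ANE.W7
import Pool.Agent.ANE.W8

/-! # ANE W9: the output of the multiscale analysis implies almost sure continuous spectrum. -/

open MeasureTheory Set Filter Topology Matrix
open scoped NNReal

noncomputable section

namespace Pool.Agent.ANE

open Pool.Agent.Kin

/-- The output of the multiscale analysis.  For almost every REAL energy `E ∈ [a,b]` and every `k` there are a
torus, a probability space with a field `V` with law `μ^Tor` and a measurable event `A` with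
`P(A) ≥ 1 - δ` such that on `A` there is a witness (`WitT`): an approximate solution `u` of
`(H - E - i W) u = δ_0` supported in `|x| ≤ L/2 - 2`, with an arbitrary absorption `0 ≤ W ≤ 1/(k+1)` (it may depend
on the energy, on `k` and on the configuration; it is `0` on the holes), with error
`∑ ‖r_x‖ (1 + ‖u_x‖) < 1/(k+1)` and `Im u_0 > c`. -/
def AndOut (d : ℕ) (μ : Measure ℝ) (lam a b c δ : ℝ) : Prop :=
  ∀ᵐ E : ℝ, E ∈ Icc a b → ∀ k : ℕ, ∃ (L : ℕ) (_ : NeZero L) (Ω : Type)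
    (_ : MeasurableSpace Ω) (P : Measure Ω) (V : Ω → Tor d L → ℝ) (A : Set Ω),
    IsProbabilityMeasure P ∧ Measurable V ∧ P.map V = (Measure.pi fun _ : Tor d L => μ) ∧
    MeasurableSet A ∧ 1 - δ ≤ P.real A ∧
    ∀ s ∈ A, WitT L (fun w => lam * V s w) E c (1 / ((k : ℝ) + 1))

theorem prob_of_out {d : ℕ} {μ : Measure ℝ} [IsProbabilityMeasure μ] {M lam : ℝ} (hM : 0 ≤ M)
    (hμ : μ (Icc (-M) M)ᶜ = 0) {a b c δ : ℝ} (hc : 0 ≤ c) (h : AndOut d μ lam a b c δ) :
    ∀ᵐ E : ℝ, E ∈ Icc a b → ∀ k : ℕ, (Helper3.Anderson.PP d μ).real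
      {ω | ¬ Wit (Helper3.Anderson.potc M lam ω) E c (1 / ((k : ℝ) + 1))} ≤ δ := by
  filter_upwards [h] with E h1 hE k
  obtain ⟨L, hL, Ω, hΩ, P, V, A, hP, hV, hlaw, hA, hPA, hw⟩ := h1 hE k
  refine prob_wit_of_torus (L := L) hM hμ hc ?_
  refine hPA.trans ?_
  have hl : Continuous fun h : Tor d L → ℝ => (fun w => lam * h w : Tor d L → ℝ) := by fun_prop
  have hms : MeasurableSet {h : Tor d L → ℝ | WitT L (fun w => lam * h w) E c
      (1 / ((k : ℝ) + 1))} := ((isOpen_witT E c _).preimage hl).measurableSet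
  rw [← hlaw, measureReal_def, measureReal_def, Measure.map_apply hV hms]
  have : IsProbabilityMeasure P := hP
  refine ENNReal.toReal_mono (measure_ne_top _ _) (measure_mono fun s hs => ?_)
  exact hw s hs

theorem ae_contIn_of_out {d : ℕ} (hd : 0 < d) {μ : Measure ℝ} [IsProbabilityMeasure μ] {M : ℝ}
    {K : ℝ≥0} (hμ : Helper3.Anderson.GoodLaw μ M K) (hM : 0 ≤ M) {a b : ℝ} (hab : a < b)
    (ha : 0 ≤ a) (hb : b ≤ 4 * d) :
    ∃ κ : ℝ, 0 < κ ∧ ∀ lam : ℝ, 0 < lam → lam ≤ κ → ∀ c : ℝ, 0 < c →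
      AndOut d μ lam a b c (κ * lam) →
      ∀ᵐ ω ∂(Helper3.Anderson.PP d μ), ContIn (Helper3.Anderson.potc M lam ω)
        (Helper3.Anderson.bdd_potc hM ω) a b := by
  obtain ⟨κ, hκ, h⟩ := ae_contIn_of_wit hd hμ hM hab ha hb
  exact ⟨κ, hκ, fun lam hl hl1 c hc ho => h lam hl hl1 c hc
    (prob_of_out hM hμ.supp hc.le ho)⟩

end Pool.Agent.ANE
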