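import Pool.Agent.ANE.SoftDefs
import Pool.Agent.Helper3.Crit.SpecAvgFun
import Pool.Agent.Kin.TDefs

/-! # ANE (soft end, second version): definitions.

`Wit V E c η`: there is a finitely supported approximate solution `u` of `(-Δ + V - E - i W) u = δ_0` at the
REAL energy `E`, where `W` is an arbitrary function with values in `[0, η]` (it may depend on everything),
with `Im u_0 > c`.
-/

open MeasureTheory Set Filter Topology Pool.Agent.Helper3.Anderson

noncomputable section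

namespace Pool.Agent.ANE

open Pool.Agent.Helper3.Crit Pool.Agent.Kin

/-- the residual `(-Δ + V - E - i W) u - δ_0` -/
def rsd {d : ℕ} (V : Site d → ℝ) (E : ℝ) (W : Site d → ℝ) (u : Site d → ℂ) (x : Site d) : ℂ :=
  -lap u x + V x * u x - E * u x - Complex.I * (W x * u x) - (if x = 0 then 1 else 0)

/-- a witness at the real energy `E` with absorption between `0` and `η` -/
def Wit {d : ℕ} (V : Site d → ℝ) (E c η : ℝ) : Prop :=
  ∃ (F : Finset (Site d)) (u : Site d → ℂ) (W : Site d → ℝ), (∀ x ∉ F, u x = 0) ∧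
    (∀ x ∉ F, rsd V E W u x = 0) ∧ (∀ x, 0 ≤ W x ∧ W x ≤ η) ∧
    ∑ x ∈ F, ‖rsd V E W u x‖ * (1 + ‖u x‖) < η ∧ c < (u 0).im

/-- the energies for which there is no witness for all small absorptions `1/(k+1)` -/
def NoWit {d : ℕ} (V : Site d → ℝ) (c : ℝ) : Set ℝ :=
  {E | ∀ᶠ k : ℕ in atTop, ¬ Wit V E c (1 / ((k : ℝ) + 1))}

/-- the residual on the torus -/
def rsdT {d L : ℕ} [NeZero L] (V : Tor d L → ℝ) (E : ℝ) (W : Tor d L → ℝ) (u : Tor d L → ℂ)
    (x : Tor d L) : ℂ :=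
  (H0T d L).mulVec u x + V x * u x - E * u x - Complex.I * (W x * u x) - (if x = 0 then 1 else 0)

/-- a witness on the torus, supported in `|x|_∞ ≤ L/2 - 2` -/
def WitT {d : ℕ} (L : ℕ) [NeZero L] (V : Tor d L → ℝ) (E c η : ℝ) : Prop :=
  ∃ (u : Tor d L → ℂ) (W : Tor d L → ℝ), (∀ x, 0 ≤ W x ∧ W x ≤ η) ∧
    (∀ x, u x ≠ 0 → ∀ j, 2 * |rep x j| + 4 ≤ (L : ℤ)) ∧
    ∑ x, ‖rsdT V E W u x‖ * (1 + ‖u x‖) < η ∧ c < (u 0).im

end Pool.Agent.ANE
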